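import Pool.Agent.Helper9.TD.Typ
import Pool.Agent.Helper13.LT.Cov
import Pool.Agent.Helper3.FJ.Main2

/-!
# Subcomplexes and covers of typed complexes
-/

set_option autoImplicit false

namespace Pool.Agent.Helper63.TD

open Relation Pool.Agent.Helper29.BA Pool.Agent.Helper29.PA Pool.Agent.Helper3.FJ
  Pool.Agent.Helper3.FJ.Cpx Pool.Agent.Helper9.TD

section

variable {S V : Type} {M : CoxeterMatrix S} {X : Cpx V} {τ : V → Finset S} {G : Type} [Group G]
  [MulAction G V] {v₀ : V}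

/-- Closed finite sets of vertices. -/
def ClT (X : Cpx V) (τ : V → Finset S) (s : Finset V) : Prop :=
  (∀ c ∈ s, τ c = ∅ → ∀ x, X.adj c x → x ∈ s) ∧ ∀ v ∈ s, τ v ≠ ∅ → ∃ c ∈ s, τ c = ∅ ∧ X.adj c v

open Classical in
theorem ClT.union {s t : Finset V} (hs : ClT X τ s) (ht : ClT X τ t) : ClT X τ (s ∪ t) := by
  refine ⟨fun c hc h0 x hx => ?_, fun p hp h1 => ?_⟩
  · rcases Finset.mem_union.1 hc with h | h
    · exact Finset.mem_union_left _ (hs.1 c h h0 x hx)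
    · exact Finset.mem_union_right _ (ht.1 c h h0 x hx)
  · rcases Finset.mem_union.1 hp with h | h
    · obtain ⟨c, h2, h3⟩ := hs.2 p h h1
      exact ⟨c, Finset.mem_union_left _ h2, h3⟩
    · obtain ⟨c, h2, h3⟩ := ht.2 p h h1
      exact ⟨c, Finset.mem_union_right _ h2, h3⟩

/-- The chambers have finitely many neighbours. -/
theorem finite_nbr [Finite S] (hT : TK M X τ) {c : V} (hc : τ c = ∅) :
    {x | X.adj c x}.Finite := by
  classical
  have : Fintype S := Fintype.ofFinite S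
  refine Set.Finite.of_finite_image (f := τ) (Set.toFinite _) ?_
  intro x hx y hy hxy
  have hlt : τ c ⊂ τ x := by
    rcases hT.sub _ _ hx with h | h
    · exact h
    · rw [hc] at h
      exact absurd h (Finset.not_ssubset_empty _)
  exact hT.un c x y hx hy hlt hxy

open Classical in
theorem exists_clT [Finite S] (hT : TK M X τ) (t : Finset V) :
    ∃ s : Finset V, t ⊆ s ∧ ClT X τ s := by
  have hex : ∀ p, ∃ c, τ p ≠ ∅ → τ c = ∅ ∧ X.adj c p := by
    intro p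
    by_cases h : τ p ≠ ∅
    · obtain ⟨c, hc⟩ := hT.ch p h
      exact ⟨c, fun _ => hc⟩
    · exact ⟨p, fun h' => (h h').elim⟩
  choose c hc using hex
  have hex2 : ∀ x, ∃ N : Finset V, τ x = ∅ → ∀ y, X.adj x y ↔ y ∈ N := by
    intro x
    by_cases h : τ x = ∅
    · exact ⟨(finite_nbr hT h).toFinset, fun _ y => by simp⟩
    · exact ⟨∅, fun h' => (h h').elim⟩
  choose N hN using hex2
  have hne : ∀ {u v : V}, X.adj u v → τ u = ∅ → τ v ≠ ∅ := by
    intro u v h hu hv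
    rcases hT.sub _ _ h with h1 | h1 <;> rw [hu, hv] at h1 <;> exact ssubset_irrefl _ h1
  let s₁ : Finset V := t ∪ (t.filter fun p => τ p ≠ ∅).image c
  let s : Finset V := s₁ ∪ (s₁.filter fun x => τ x = ∅).biUnion N
  refine ⟨s, fun x hx => Finset.mem_union_left _ (Finset.mem_union_left _ hx), ?_, ?_⟩
  · intro x hx h0 y hy
    rcases Finset.mem_union.1 hx with h | h
    · refine Finset.mem_union_right _ (Finset.mem_biUnion.2 ⟨x, ?_, (hN x h0 y).1 hy⟩)
      exact Finset.mem_filter.2 ⟨h, h0⟩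
    · obtain ⟨z, hz, hxz⟩ := Finset.mem_biUnion.1 h
      have hz0 := (Finset.mem_filter.1 hz).2
      exact absurd h0 (hne ((hN z hz0 x).2 hxz) hz0)
  · intro p hp h1
    rcases Finset.mem_union.1 hp with h | h
    · rcases Finset.mem_union.1 h with h | h
      · refine ⟨c p, Finset.mem_union_left _ (Finset.mem_union_right _
          (Finset.mem_image.2 ⟨p, Finset.mem_filter.2 ⟨h, h1⟩, rfl⟩)), hc p h1⟩
      · obtain ⟨z, hz, rfl⟩ := Finset.mem_image.1 h
        have hz1 := (Finset.mem_filter.1 hz).2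
        exact absurd (hc z hz1).1 h1
    · obtain ⟨z, hz, hpz⟩ := Finset.mem_biUnion.1 h
      have hz0 := (Finset.mem_filter.1 hz).2
      exact ⟨z, Finset.mem_union_left _ (Finset.mem_filter.1 hz).1, hz0, (hN z hz0 p).2 hpz⟩

/-- A finitely generated group is the colimit of the groups of the lifts to the universal covers of
the cocompact subcomplexes given by closed sets. -/
theorem colim_clT {C : ∀ (G : Type) [Group G], Prop} (hC : ClosedClass C) (hA : X.Acts G)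
    (hX : X.SimplyConn) (S' : Finset G) (hS : Subgroup.closure (S' : Set G) = ⊤)
    (hcl : ∀ t : Finset V, ∃ s : Finset V, t ⊆ s ∧ ClT X τ s)
    (hGG : ∀ (v₀ : V) (s : Finset V), v₀ ∈ s → ClT X τ s → C (GG (sb_acts hA s) v₀)) : C G := by
  classical
  obtain ⟨v₀⟩ := hX.1
  obtain ⟨s₀, hv₀, hs₀⟩ := exists_orbit_reach hA.1 hX.2.1 S' hS v₀
  let I : Type := {s : Finset V // s₀ ⊆ s ∧ ClT X τ s}
  have : IsDirectedOrder I :=
    ⟨fun a b => ⟨⟨a.1 ∪ b.1, a.2.1.trans Finset.subset_union_left, a.2.2.union b.2.2⟩,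
      Finset.subset_union_left, Finset.subset_union_right⟩⟩
  obtain ⟨s₁, hs₁, hs₁'⟩ := hcl s₀
  have : Nonempty I := ⟨⟨s₁, hs₁, hs₁'⟩⟩
  refine hC.colimit I (fun s => GG (sb_acts hA s.1) v₀)
    (fun s t h => mapGG v₀ (sb_sub h) (sb_acts hA s.1) (sb_acts hA t.1)) ?_ G
    (fun s => prG v₀ (sb_acts hA s.1)) ?_ ?_ ?_ ?_
  · intro i j k h h' x
    exact mapGG_mapGG v₀ _ _ _ _ _ x
  · intro i j h x
    exact prG_mapGG v₀ _ _ _ x
  · intro γ
    obtain ⟨φ, hφ⟩ := lift_reach (X := X.sb G s₁) (hs₀ s₁ hs₁ γ)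
    exact ⟨⟨s₁, hs₁, hs₁'⟩, ⟨⟨φ, γ⟩, (mem_GG_mk v₀ _).2 hφ⟩, rfl⟩
  · intro i x hx1
    rw [prG_apply] at hx1
    have hx := x.2
    have h1 : ReflTransGen (adjW (X.sb G i.1)) (v₀, 1) (v₀, x.1.left) := by
      have := (mem_GG_mk v₀ (sb_acts hA i.1) (φ := x.1.left) (γ := x.1.right)).1 hx
      rwa [hx1, one_smul] at this
    have h2 := map_reach (sb_sub_self i.1) h1
    simp only [map_one] at h2
    have h3 := reach_eq_one hX h2
    obtain ⟨w, hw⟩ := QuotientGroup.mk_surjective x.1.left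
    rw [← hw, mapPhi_mk, QuotientGroup.eq_one_iff] at h3
    obtain ⟨t, ht⟩ := exists_normalClosure (G := G) h3
    obtain ⟨t', htt', ht'⟩ := hcl t
    refine ⟨⟨i.1 ∪ t', i.2.1.trans Finset.subset_union_left, i.2.2.union ht'⟩,
      Finset.subset_union_left, ?_⟩
    refine mapGG_eq_one v₀ _ _ _ x ?_ hx1
    rw [← hw, mapPhi_mk, QuotientGroup.eq_one_iff]
    exact Subgroup.normalClosure_mono
      (relc_mono (sb_sub (htt'.trans Finset.subset_union_right))) ht
  · intro i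
    exact hGG v₀ i.1 (i.2.1 hv₀) i.2.2

/-- Subgroups. -/
theorem ActsT.sub (hA : ActsT G X τ) (T : Subgroup G) : ActsT T X τ :=
  ⟨⟨fun g u v h => hA.acts.1 g.1 u v h, fun g u v w h => hA.acts.2 g.1 u v w h⟩,
    fun g v => hA.inv g.1 v, fun g c h h' => Subtype.ext (hA.free g.1 c h h')⟩

theorem ClT.nbr (hA : ActsT G X τ) {s : Finset V} (hs : ClT X τ s) {c x : V} {g : G}
    (hc : g • c ∈ s) (h0 : τ c = ∅) (hx : X.adj c x) : g • x ∈ s :=
  hs.1 _ hc (by rw [hA.inv, h0]) _ (hA.acts.1 g _ _ hx)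

/-- The vertices of the cover of a subcomplex lie over translates of the closed set. -/
theorem sbcov_mem {s : Finset V} (hv₀ : v₀ ∈ s) (p : Cv (X.sb G s) v₀) :
    ∃ γ : G, γ • p.1.1 ∈ s := by
  refine reach_mem (X := X) (G := G) ⟨1, by simpa using hv₀⟩ (u := v₀) ?_
  have h2 := p.2
  have key : ∀ q : V × (X.sb G s).Phi, ReflTransGen (adjW (X.sb G s)) (v₀, 1) q →
      ReflTransGen (X.kadj G s) v₀ q.1 := by
    intro q hq
    induction hq with
    | refl => exact ReflTransGen.refl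
    | tail _ h4 ih => exact ih.tail h4.1
  exact key _ h2

open Pool.Agent.Helper13.LT in
/-- Alternating galleries in a cover. -/
theorem al_cover {Y : Cpx V} (hY : ∀ u v, Y.adj u v → X.adj u v) {s t : S} {n : ℕ}
    {c d : {v : Cv Y v₀ // τ v.1.1 = ∅}}
    (h : Al (Pn (cover Y v₀) (fun p => τ p.1.1)) s t n c d) :
    Al (Pn X τ) s t n ⟨c.1.1.1, c.2⟩ ⟨d.1.1.1, d.2⟩ := by
  induction h with
  | nil s t c => exact Al.nil _ _ _
  | @cons s t n c d e h1 h2 _ ih =>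
    obtain ⟨p, hp, hcp, hdp⟩ := h1
    refine Al.cons ⟨p.1.1, hp, hY _ _ hcp.1, hY _ _ hdp.1⟩ ?_ ih
    intro h3
    apply h2
    apply Subtype.ext
    exact adj_eq ((cover Y v₀).adj_symm _ _ hcp) ((cover Y v₀).adj_symm _ _ hdp)
      (congrArg Subtype.val h3)

open Pool.Agent.Helper13.LT in
/-- The covers of the subcomplexes given by closed sets are typed complexes. -/
theorem sbcov_tk (hT : TK M X τ) (hA : ActsT G X τ) {s : Finset V} (hs : ClT X τ s)
    (hv₀ : v₀ ∈ s) : TK M (cover (X.sb G s) v₀) (fun p => τ p.1.1) := by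
  have hne : ∀ {u v : V}, X.adj u v → τ u = ∅ → τ u ⊂ τ v := by
    intro u v h hu
    rcases hT.sub _ _ h with h1 | h1
    · exact h1
    · rw [hu] at h1
      exact absurd h1 (Finset.not_ssubset_empty _)
  have chain : ∀ {u v w : V}, τ u ⊂ τ v → τ v ⊂ τ w → τ u = ∅ := by
    intro u v w h1 h2
    have h3 := Finset.card_lt_card h1
    have h4 := Finset.card_lt_card h2
    have h5 := hT.two w
    exact Finset.card_eq_zero.mp (by omega)
  -- neighbours of chambers are in the subcomplex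
  have sbadj : ∀ {p : Cv (X.sb G s) v₀} {x : V}, τ p.1.1 = ∅ → X.adj p.1.1 x →
      (X.sb G s).adj p.1.1 x := by
    intro p x h0 hx
    obtain ⟨g, hg⟩ := sbcov_mem hv₀ p
    exact ⟨hx, g, hg, hs.nbr hA hg h0 hx⟩
  have sbtri : ∀ {p : Cv (X.sb G s) v₀} {x y : V}, τ p.1.1 = ∅ → X.tri p.1.1 x y →
      (X.sb G s).tri p.1.1 x y := by
    intro p x y h0 hxy
    obtain ⟨g, hg⟩ := sbcov_mem hv₀ p
    refine ⟨hxy, g, hg, hs.nbr hA hg h0 (X.tri_adj _ _ _ hxy), hs.nbr hA hg h0 ?_⟩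
    exact X.adj_symm _ _ (X.tri_adj _ _ _ (X.tri_rot _ _ _ (X.tri_rot _ _ _ hxy)))
  refine ⟨fun v => hT.two _, fun v => hT.sph _, fun u v h => hT.sub _ _ h.1.1, ?_, ?_, ?_, ?_, ?_,
    ?_⟩
  · intro v hv
    obtain ⟨g, hg⟩ := sbcov_mem hv₀ v
    obtain ⟨c, hc, hc0, hcv⟩ := hs.2 _ hg (by rw [hA.inv]; exact hv)
    have h1 : X.adj (g⁻¹ • c) v.1.1 := by
      have := hA.acts.1 g⁻¹ _ _ hcv
      rwa [inv_smul_smul] at this
    have h2 : (X.sb G s).adj v.1.1 (g⁻¹ • c) :=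
      ⟨X.adj_symm _ _ h1, g, hg, by rw [smul_inv_smul]; exact hc⟩
    obtain ⟨q, hq, hvq⟩ := exists_adj v h2
    refine ⟨q, ?_, (cover _ v₀).adj_symm _ _ hvq⟩
    rw [hq, hA.inv, hc0]
  · intro c J hc hJ hJ2 hJM
    obtain ⟨x, hx, hxJ⟩ := hT.up c.1.1 J hc hJ hJ2 hJM
    obtain ⟨q, hq, hcq⟩ := exists_adj c (sbadj hc hx)
    refine ⟨q, hcq, ?_⟩
    rw [hq, hxJ]
  · intro u v v' h1 h2 h3 h4
    exact adj_eq h1 h2 (hT.un _ _ _ h1.1.1 h2.1.1 h3 h4)
  · intro u v w h1 h2 h3 h4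
    have h5 : τ u.1.1 = ∅ := chain h3 h4
    have h6 := hT.tri _ _ _ h1.1.1 h2.1.1 h3 h4
    exact ⟨sbtri h5 h6, h1.2, h2.2⟩
  · intro c p r hc h1 h2 h3
    exact (adj_of_tri (sbtri hc (hT.flag _ _ _ hc h1.1.1 h2.1.1 h3)) h1 h2).1
  · intro a b n c hab hn h
    exact hT.gir a b n _ hab hn (al_cover (X := X) (Y := X.sb G s) (fun _ _ h => h.1) h)

theorem sb_actsT (hA : ActsT G X τ) (s : Finset V) : ActsT G (X.sb G s) τ :=
  ⟨sb_acts hA.acts s, hA.inv, hA.free⟩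

/-- The action on the cover. -/
theorem cover_actsT (hA : ActsT G X τ) :
    ActsT (GG hA.acts v₀) (cover X v₀) (fun p => τ p.1.1) := by
  refine ⟨cover_acts hA.acts, fun g v => hA.inv g.1.right v.1.1, ?_⟩
  intro g c hc hgc
  refine cover_inj (MonoidHom.id G) g c hgc ?_ fun γ _ h => h
  have h1 : sm hA.acts g.1 c.1 = c.1 := congrArg Subtype.val hgc
  exact hA.free _ _ hc (congrArg Prod.fst h1)

theorem sbcov_actsT (hA : ActsT G X τ) (s : Finset V) :
    ActsT (GG (sb_acts hA.acts s) v₀) (cover (X.sb G s) v₀) (fun p => τ p.1.1) :=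
  cover_actsT (sb_actsT hA s)

theorem cover_sb_tk (hT : TK M X τ) (hA : ActsT G X τ) {s : Finset V} (hs : ClT X τ s)
    (hv₀ : v₀ ∈ s) : TK M (cover (X.sb G s) v₀) (fun p => τ p.1.1) :=
  sbcov_tk hT hA hs hv₀

end

end Pool.Agent.Helper63.TD
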