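import Pool.Agent.Helper63.TD.Height
import Pool.Agent.Helper9.TD.Defs

/-!
# Row A: the facts on Coxeter groups used in the free edge theorem
-/

namespace Pool.Agent.Helper63.TD

open Real CoxeterSystem

section

variable {S : Type} {M : CoxeterMatrix S}

theorem twoDim_of (h : Pool.Agent.Helper9.TD.TwoDim M) : TwoDim M := by
  apply TwoDim.of_nat
  intro s t u hst hsu htu e1 e2 e3
  have h1 := h s t u hst htu hsu e1 e3 e2
  have p1 : (0 : ℚ) < M s t := by exact_mod_cast Nat.pos_of_ne_zero e1
  have p2 : (0 : ℚ) < M s u := by exact_mod_cast Nat.pos_of_ne_zero e2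
  have p3 : (0 : ℚ) < M t u := by exact_mod_cast Nat.pos_of_ne_zero e3
  have e : (1 : ℚ) / M s t + 1 / M t u + 1 / M s u
      = (M s u * M t u + M s t * M t u + M s t * M s u : ℚ) / (M s t * M s u * M t u) := by
    field_simp
    ring
  rw [e, div_le_one (by positivity)] at h1
  exact_mod_cast h1

theorem ap_eq (s t : S) (k : ℕ) :
    Pool.Agent.Helper9.TD.ap M s t k = altE M.toCoxeterSystem s t k := by
  induction k generalizing s t with
  | zero => rfl
  | succ k ih =>
    rw [altE_succ', ← ih]
    rfl

theorem add_nonneg_root {m k : ℕ} (hm : m ≠ 1) (hk : k + 1 ≤ m) {u v : S →₀ ℝ} (hu : 0 ≤ u)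
    (hv : 0 ≤ v) : 0 ≤ chb (cl m) (k + 1) • u + chb (cl m) k • v :=
  add_nonneg (smul_nonneg' (chb_nonneg hm (Or.inr hk)) hu)
    (smul_nonneg' (chb_nonneg hm (Or.inr (by omega))) hv)

theorem coxF (h : Pool.Agent.Helper9.TD.TwoDim M) : Pool.Agent.Helper9.TD.CoxF M where
  two := by
    intro w s t hst hs ht
    refine ⟨label_ne_zero_of_descents M.toCoxeterSystem hst hs ht, ?_⟩
    intro k
    induction k with
    | zero => intro _; simp [Pool.Agent.Helper9.TD.ap]
    | succ k ih =>
      intro hk
      have h1 := ih (by omega)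
      rw [ap_eq] at h1 ⊢
      rw [altE_succ, ← mul_assoc]
      have h2 := (root_altE M.toCoxeterSystem w s t k).1
      have h3 : root M.toCoxeterSystem (w * altE M.toCoxeterSystem s t k) (lett s t k) ≤ 0 := by
        rw [h2, ← neg_nonneg, neg_add, ← smul_neg, ← smul_neg]
        exact add_nonneg_root (M.off_diagonal s t hst) hk
          (neg_nonneg.mpr (root_nonpos M.toCoxeterSystem hs))
          (neg_nonneg.mpr (root_nonpos M.toCoxeterSystem ht))
      rw [root_nonpos_iff, M.toCoxeterSystem.isRightDescent_iff] at h3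
      simp only [Pool.Agent.Helper9.TD.len] at h1 ⊢
      omega
  asc := by
    intro w s t hst hs ht k
    induction k with
    | zero => intro _; simp [Pool.Agent.Helper9.TD.ap]
    | succ k ih =>
      intro hk
      have h1 := ih (by omega)
      rw [ap_eq] at h1 ⊢
      rw [altE_succ, ← mul_assoc]
      have h2 := (root_altE M.toCoxeterSystem w s t k).1
      have h3 : 0 ≤ root M.toCoxeterSystem (w * altE M.toCoxeterSystem s t k) (lett s t k) := by
        rw [h2]
        exact add_nonneg_root (M.off_diagonal s t hst) hk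
          (root_nonneg M.toCoxeterSystem hs) (root_nonneg M.toCoxeterSystem ht)
      rw [root_nonneg_iff, M.toCoxeterSystem.not_isRightDescent_iff] at h3
      simp only [Pool.Agent.Helper9.TD.len] at h1 ⊢
      omega
  three := by
    intro w s t u hst htu hsu hs ht hu
    exact not_three_descents M.toCoxeterSystem (twoDim_of h) hst hsu htu hs ht hu

theorem exists_htF (h : Pool.Agent.Helper9.TD.TwoDim M) :
    ∃ lam ph, Pool.Agent.Helper9.TD.HtF M lam ph := by
  set μ : (S →₀ ℝ) →ₗ[ℝ] ℝ := Finsupp.linearCombination ℝ (fun _ => (1 : ℝ)) with hμ'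
  have hμ : ∀ s, 0 < μ (Finsupp.single s 1) := by
    intro s
    simp [hμ']
  refine ⟨fun w s => μ (root M.toCoxeterSystem w s), fun w => μ (disp M.toCoxeterSystem w), ?_⟩
  constructor
  · intro w s t
    have h1 := root_mul_simple M.toCoxeterSystem w s t
    rw [CoxeterMatrix.toCoxeterSystem_simple] at h1
    simp only [h1, map_add, map_smul, smul_eq_mul, Pool.Agent.Helper9.TD.bf, cl]
    ring
  · intro w s
    have h1 := disp_mul_simple M.toCoxeterSystem w s
    rw [CoxeterMatrix.toCoxeterSystem_simple] at h1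
    simp only [h1, map_add]
  · intro w s
    exact root_pos_iff M.toCoxeterSystem μ hμ
  · intro w s
    exact root_neg_iff M.toCoxeterSystem μ hμ
  · intro w s t u hst htu hsu h1 h2 ⟨h3, h4⟩
    refine orth_case M.toCoxeterSystem μ (twoDim_of h) hμ w hst hsu htu h1 h2 ?_ ?_
    · rw [act_orth, map_add, map_smul, smul_eq_mul]
      simp only [Pool.Agent.Helper9.TD.bf] at h3
      rw [cl]
      linarith
    · rw [act_orth, map_add, map_smul, smul_eq_mul]
      simp only [Pool.Agent.Helper9.TD.bf] at h4
      rw [cl]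
      linarith

end

end Pool.Agent.Helper63.TD
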