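import Pool.Agent.Helper63.TD.Cov
import Pool.Agent.Helper9.TD.Typ

/-!
# Row N: the chamber system of a simply connected typed complex is simply connected
-/

set_option autoImplicit false

namespace Pool.Agent.Helper63.TD

open Relation Pool.Agent.Helper9.TD Pool.Agent.Helper3.FJ

section

variable {S V : Type} {M : CoxeterMatrix S} {X : Cpx V} {τ : V → Finset S}

theorem Pn_symm {s : S} {c d : {v : V // τ v = ∅}} (h : Pn X τ s c d) : Pn X τ s d c := by
  obtain ⟨p, hp, h1, h2⟩ := h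
  exact ⟨p, hp, h2, h1⟩

/-- A chamber below each vertex. -/
noncomputable def bc (hT : TK M X τ) (v : V) : {v : V // τ v = ∅} :=
  open Classical in
  if h : τ v = ∅ then ⟨v, h⟩ else ⟨(hT.ch v h).choose, (hT.ch v h).choose_spec.1⟩

theorem bc_ch (hT : TK M X τ) (v : V) (h : τ v = ∅) : bc hT v = ⟨v, h⟩ := by
  simp [bc, h]

theorem bc_adj (hT : TK M X τ) (v : V) (h : τ v ≠ ∅) : X.adj (bc hT v).1 v := by
  simp only [bc, h, dif_neg, not_false_eq_true]
  exact (hT.ch v h).choose_spec.2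

/-- The reference chamber of a vertex. -/
noncomputable def av (hT : TK M X τ) (v : V) : {v : V // τ v = ∅} :=
  rp (Pn X τ) (τ v) (bc hT v)

theorem av_ch (hT : TK M X τ) (v : V) (h : τ v = ∅) : av hT v = ⟨v, h⟩ := by
  have h1 := Q_rp (A := Pn X τ) (fun s x y h => Pn_symm h) (τ v) (bc hT v)
  rw [h] at h1
  have h2 := Q_empty h1
  rw [av, h, ← h2, bc_ch hT v h]

/-- The reference chamber of an edge. -/
noncomputable def ev (hT : TK M X τ) (u v : V) : {v : V // τ v = ∅} :=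
  rp (Pn X τ) (τ v) (av hT u)

theorem Q_ev (hT : TK M X τ) (u v : V) : Q (Pn X τ) (τ v) (av hT u) (ev hT u v) :=
  Q_rp (A := Pn X τ) (fun _ _ _ h => Pn_symm h) _ _

theorem Q_chamber_panel (hT : TK M X τ) {u v : V} {s : S} (hu : τ u = ∅) (hv : τ v = {s})
    (h : X.adj u v) : Q (Pn X τ) (τ v) (av hT u) (av hT v) := by
  have h1 : Q (Pn X τ) (τ v) (bc hT v) (av hT v) :=
    Q_rp (A := Pn X τ) (fun _ _ _ h => Pn_symm h) _ _
  refine Q_trans ?_ h1
  rw [av_ch hT u hu]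
  refine ReflTransGen.single ⟨s, by simp [hv], v, hv, h, ?_⟩
  exact bc_adj hT v (by rw [hv]; simp)

theorem ev_chamber_panel (hT : TK M X τ) {u v : V} {s : S} (hu : τ u = ∅) (hv : τ v = {s})
    (h : X.adj u v) : ev hT u v = av hT v := by
  rw [ev, rp_eq (Q_chamber_panel hT hu hv h)]
  rw [av, ← rp_eq (Q_rp (A := Pn X τ) (fun _ _ _ h => Pn_symm h) (τ v) (bc hT v))]

/-- Chains of types. -/
theorem chain_types (hT : TK M X τ) {u v w : V} (h1 : τ u ⊂ τ v) (h2 : τ v ⊂ τ w) :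
    τ u = ∅ ∧ ∃ s, τ v = {s} := by
  have h3 := Finset.card_lt_card h1
  have h4 := Finset.card_lt_card h2
  have h5 := hT.two w
  have h6 : (τ u).card = 0 := by omega
  have h7 : (τ v).card = 1 := by omega
  exact ⟨Finset.card_eq_zero.mp h6, Finset.card_eq_one.mp h7⟩

section

variable {D : Type} {π : D → {v : V // τ v = ∅}} {B : S → D → D → Prop}

theorem uq_of (hB : ∀ s, Equivalence (B s))
    (h1 : ∀ s x y, B s x y → π x = π y → x = y)
    (h2 : ∀ s t, s ≠ t → M s t ≠ 0 → ∀ x y,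
      ReflTransGen (fun a b => B s a b ∨ B t a b) x y → π x = π y → x = y)
    (J : Finset S) (hJ : J.card ≤ 2) (hM : ∀ s ∈ J, ∀ t ∈ J, M s t ≠ 0) : Uq B π J := by
  classical
  intro x y hxy hπ
  rcases Nat.lt_or_ge J.card 1 with h0 | h0
  · have : J = ∅ := Finset.card_eq_zero.mp (by omega)
    subst this
    exact Q_empty hxy
  rcases Nat.lt_or_ge J.card 2 with h3 | h3
  · obtain ⟨s, rfl⟩ := Finset.card_eq_one.mp (show J.card = 1 by omega)
    apply h1 s x y _ hπ
    clear hπ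
    induction hxy with
    | refl => exact (hB s).refl _
    | tail _ h4 ih =>
      obtain ⟨t, ht, h5⟩ := h4
      rw [Finset.mem_singleton] at ht
      subst ht
      exact (hB t).trans ih h5
  · obtain ⟨s, t, hst, rfl⟩ := Finset.card_eq_two.mp (show J.card = 2 by omega)
    apply h2 s t hst (hM s (by simp) t (by simp)) x y _ hπ
    clear hπ
    induction hxy with
    | refl => exact ReflTransGen.refl
    | tail _ h4 ih =>
      obtain ⟨r, hr, h5⟩ := h4
      rw [Finset.mem_insert, Finset.mem_singleton] at hr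
      rcases hr with rfl | rfl
      · exact ReflTransGen.tail ih (Or.inl h5)
      · exact ReflTransGen.tail ih (Or.inr h5)

variable {F : Type} (β : {v : V // τ v = ∅} → F → D) (c₀ : {v : V // τ v = ∅})

/-- The component of the base chamber. -/
def Cmp (X : Cpx V) (τ : V → Finset S) (c₀ c : {v : V // τ v = ∅}) : Prop :=
  ReflTransGen (fun a b => ∃ s, Pn X τ s a b) c₀ c

theorem Cmp_of_Q {c d : {v : V // τ v = ∅}} {J : Finset S} (h : Cmp X τ c₀ c)
    (hQ : Q (Pn X τ) J c d) : Cmp X τ c₀ d := by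
  induction hQ with
  | refl => exact h
  | tail _ h4 ih =>
    obtain ⟨r, hr, h5⟩ := h4
    exact ReflTransGen.tail ih ⟨r, h5⟩

variable (B) in
/-- The transport permutation. -/
noncomputable def trp (J : Finset S) (c d : {v : V // τ v = ∅}) : Equiv.Perm F :=
  open Classical in
  if h : ∃ σ, Gd B (β c) (β d) J σ then h.choose else 1

theorem trp_gd {J : Finset S} {c d : {v : V // τ v = ∅}} (h : ∃ σ, Gd B (β c) (β d) J σ) :
    Gd B (β c) (β d) J (trp B β J c d) := by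
  rw [trp, dif_pos h]
  exact h.choose_spec

variable (B) in
/-- The value of the cocycle on an edge `u, v` with `τ u ⊂ τ v`. -/
noncomputable def vl (hT : TK M X τ) (u v : V) : Equiv.Perm F :=
  open Classical in
  if Cmp X τ c₀ (av hT u) then trp B β (τ v) (av hT u) (ev hT u v) else 1

variable (B) in
/-- The cocycle. -/
noncomputable def cc (hT : TK M X τ) (u v : V) : Equiv.Perm F :=
  open Classical in
  if τ u ⊂ τ v then vl B β c₀ hT u v else (vl B β c₀ hT v u)⁻¹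

variable {β c₀}

theorem vl_mul (hT : TK M X τ) (hcv : Cv (Pn X τ) B π) (huq : ∀ v, Uq B π (τ v))
    (hβ : ∀ c, Cmp X τ c₀ c → Crd π (β c) c) {u v w : V} (ht : X.tri u v w) (h1 : τ u ⊂ τ v)
    (h2 : τ v ⊂ τ w) : vl B β c₀ hT u v * vl B β c₀ hT v w = vl B β c₀ hT u w := by
  obtain ⟨hu, s, hv⟩ := chain_types hT h1 h2
  have huv : X.adj u v := X.tri_adj _ _ _ ht
  have e1 := ev_chamber_panel hT hu hv huv
  have q1 := Q_chamber_panel hT hu hv huv
  have q2 : Q (Pn X τ) (τ w) (av hT u) (av hT v) := Q_mono h2.subset q1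
  have e2 : ev hT u w = ev hT v w := by
    rw [ev, ev]
    exact rp_eq q2
  by_cases hc : Cmp X τ c₀ (av hT u)
  · have hc' : Cmp X τ c₀ (av hT v) := Cmp_of_Q c₀ hc q1
    have q3 := Q_ev hT v w
    have hc'' : Cmp X τ c₀ (ev hT v w) := Cmp_of_Q c₀ hc' q3
    rw [vl, vl, vl, if_pos hc, if_pos hc', if_pos hc, e1, e2]
    have g1 := trp_gd β (hcv.exists_gd (huq v) (hβ _ hc) (hβ _ hc') q1)
    have g2 := trp_gd β (hcv.exists_gd (huq w) (hβ _ hc') (hβ _ hc'') q3)
    have g3 := trp_gd β (hcv.exists_gd (huq w) (hβ _ hc) (hβ _ hc'') (Q_trans q2 q3))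
    exact hcv.gd_unique (huq w) (hβ _ hc) ((g1.mono h2.subset).mul g2) g3
  · have hc' : ¬ Cmp X τ c₀ (av hT v) := fun h =>
      hc (Cmp_of_Q c₀ h (Q_symm (B := Pn X τ) (fun _ _ _ h => Pn_symm h) q1))
    rw [vl, vl, vl, if_neg hc, if_neg hc', if_neg hc, mul_one]

theorem cc_cocycle (hT : TK M X τ) (hcv : Cv (Pn X τ) B π) (huq : ∀ v, Uq B π (τ v))
    (hβ : ∀ c, Cmp X τ c₀ c → Crd π (β c) c) : X.Cocycle (cc B β c₀ hT) := by
  have lt1 : ∀ {u v : V}, τ u ⊂ τ v → cc B β c₀ hT u v = vl B β c₀ hT u v := by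
    intro u v h
    rw [cc, if_pos h]
  have lt2 : ∀ {u v : V}, τ v ⊂ τ u → cc B β c₀ hT u v = (vl B β c₀ hT v u)⁻¹ := by
    intro u v h
    rw [cc, if_neg (fun h' => ssubset_asymm h h')]
  constructor
  · intro u v h
    rcases hT.sub u v h with h1 | h1
    · rw [lt1 h1, lt2 h1, mul_inv_cancel]
    · rw [lt2 h1, lt1 h1, inv_mul_cancel]
  · intro u v w h
    have r1 := X.tri_rot _ _ _ h
    have r2 := X.tri_rot _ _ _ r1
    have f0 := X.tri_flip _ _ _ h
    have f1 := X.tri_flip _ _ _ r1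
    have f2 := X.tri_flip _ _ _ r2
    have a1 := X.tri_adj _ _ _ h
    have a2 := X.tri_adj _ _ _ r1
    have a3 := X.tri_adj _ _ _ r2
    rcases hT.sub _ _ a1 with h1 | h1 <;> rcases hT.sub _ _ a2 with h2 | h2 <;>
      rcases hT.sub _ _ a3 with h3 | h3
    · exact absurd (h1.trans (h2.trans h3)) (ssubset_irrefl _)
    · rw [lt1 h1, lt1 h2, lt2 h3, vl_mul hT hcv huq hβ h h1 h2, mul_inv_cancel]
    · rw [lt1 h1, lt2 h2, lt1 h3, ← vl_mul hT hcv huq hβ r2 h3 h1]
      group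
    · rw [lt1 h1, lt2 h2, lt2 h3, ← vl_mul hT hcv huq hβ f2 h3 h2]
      group
    · rw [lt2 h1, lt1 h2, lt1 h3, ← vl_mul hT hcv huq hβ r1 h2 h3]
      group
    · rw [lt2 h1, lt1 h2, lt2 h3, ← vl_mul hT hcv huq hβ f0 h1 h3]
      group
    · rw [lt2 h1, lt2 h2, lt1 h3, ← vl_mul hT hcv huq hβ f1 h2 h1]
      group
    · exact absurd (h3.trans (h2.trans h1)) (ssubset_irrefl _)

end

/-- The chamber system of a simply connected typed complex is simply connected. -/
theorem sch (hT : TK M X τ) (hX : X.SimplyConn) : SCh M (Pn X τ) := by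
  intro D π B hB hhom hlift huniq hres x₀ y₀ hxy hπ
  have hcv : Cv (Pn X τ) B π :=
    ⟨fun _ _ _ h => Pn_symm h, fun s _ _ h => (hB s).symm h, hhom, fun s x c h => hlift s x c h⟩
  have huq : ∀ v, Uq B π (τ v) := fun v =>
    uq_of hB huniq hres (τ v) (hT.two v) (hT.sph v)
  have huq1 : ∀ s, Uq B π {s} := fun s =>
    uq_of hB huniq hres {s} (by simp) (by
      intro a ha b hb
      rw [Finset.mem_singleton] at ha hb
      subst ha
      subst hb
      rw [M.diagonal]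
      norm_num)
  obtain ⟨β, hβ⟩ := hcv.exists_crd huq1 (π x₀)
  obtain ⟨g, hg⟩ := hX.2.2 _ _ (cc_cocycle (c₀ := π x₀) hT hcv huq hβ)
  -- the cocycle on the edges from chambers to panels
  have key : ∀ (c : {v : V // τ v = ∅}) (p : V) (s : S), τ p = {s} → X.adj c.1 p →
      Cmp X τ (π x₀) c → Cmp X τ (π x₀) (av hT p) ∧
      Gd B (β c) (β (av hT p)) {s} ((g c.1)⁻¹ * g p) := by
    intro c p s hp hcp hc
    have e0 : av hT c.1 = c := av_ch hT c.1 c.2
    have q1 := Q_chamber_panel hT c.2 hp hcp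
    have hc0 : Cmp X τ (π x₀) (av hT c.1) := by rw [e0]; exact hc
    have hc' : Cmp X τ (π x₀) (av hT p) := Cmp_of_Q _ hc0 q1
    refine ⟨hc', ?_⟩
    have h1 := hg _ _ hcp
    have hlt : τ c.1 ⊂ τ p := by
      rw [c.2, hp]
      simp
    rw [cc, if_pos hlt, vl, if_pos hc0, ev_chamber_panel hT c.2 hp hcp, e0] at h1
    rw [← h1, hp]
    apply trp_gd
    rw [e0, hp] at q1
    exact hcv.exists_gd (huq1 s) (hβ _ hc) (hβ _ hc') q1
  obtain ⟨f₀, hf₀⟩ := (hβ (π x₀) ReflTransGen.refl).surj x₀ rfl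
  have main : ∀ z, ReflTransGen (fun a b => ∃ s, B s a b) x₀ z →
      Cmp X τ (π x₀) (π z) ∧ ∃ f, β (π z) f = z ∧ g (π z).1 f = g (π x₀).1 f₀ := by
    intro z hz
    induction hz with
    | refl => exact ⟨ReflTransGen.refl, f₀, hf₀, rfl⟩
    | @tail y z _ h2 ih =>
      obtain ⟨s, hs⟩ := h2
      obtain ⟨hc, f, hf, hgf⟩ := ih
      have hA := hhom _ _ _ hs
      have hcz : Cmp X τ (π x₀) (π z) := ReflTransGen.tail hc ⟨s, hA⟩
      obtain ⟨f', hf'⟩ := (hβ _ hcz).surj z rfl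
      refine ⟨hcz, f', hf', ?_⟩
      obtain ⟨p, hp, hyp, hzp⟩ := hA
      obtain ⟨hcp, g1⟩ := key _ p s hp hyp hc
      obtain ⟨_, g2⟩ := key _ p s hp hzp hcz
      have k1 := g1 (((g (π y).1)⁻¹ * g p)⁻¹ f)
      have k2 := g2 (((g (π z).1)⁻¹ * g p)⁻¹ f')
      have ai : ∀ (σ : Equiv.Perm {w : D // π w = π x₀}) (x : {w : D // π w = π x₀}),
          σ (σ⁻¹ x) = x := fun σ x => by
        rw [← Equiv.Perm.mul_apply, mul_inv_cancel, Equiv.Perm.one_apply]
      rw [ai, hf] at k1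
      rw [ai, hf'] at k2
      have k3 : Q B {s} y z := ReflTransGen.single ⟨s, by simp, hs⟩
      have k4 := Q_trans (Q_symm hcv.sym k1) (Q_trans k3 k2)
      have k5 := huq1 s _ _ k4 (by rw [(hβ _ hcp).proj, (hβ _ hcp).proj])
      have k6 := (hβ _ hcp).inj k5
      have k7 : (g p)⁻¹ (g (π y).1 f) = (g p)⁻¹ (g (π z).1 f') := by
        simpa [mul_inv_rev, Equiv.Perm.mul_apply] using k6
      rw [← hgf]
      exact ((g p)⁻¹.injective k7).symm
  obtain ⟨_, f, hf, hgf⟩ := main y₀ hxy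
  rw [← hπ] at hf hgf
  rw [← hf₀, ← hf, (g (π x₀).1).injective hgf]

end

end Pool.Agent.Helper63.TD
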