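import Mathlib

/-!
# Products of two reflections and the sequence sin (k t) / sin t

Part of the Tits representation facts for the project on 2-dimensional Artin groups.
-/

namespace Pool.Agent.Helper63.TD

open Real

/-- The sequence `c 0 = 0`, `c 1 = 1`, `c (k + 2) = 2 x c (k + 1) - c k`;
for `x = cos t` this is `sin (k t) / sin t`. -/
noncomputable def chb (x : ℝ) : ℕ → ℝ
  | 0 => 0
  | 1 => 1
  | (n + 2) => 2 * x * chb x (n + 1) - chb x n

@[simp] theorem chb_zero (x : ℝ) : chb x 0 = 0 := rfl

@[simp] theorem chb_one (x : ℝ) : chb x 1 = 1 := rfl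

theorem chb_succ_succ (x : ℝ) (n : ℕ) : chb x (n + 2) = 2 * x * chb x (n + 1) - chb x n := rfl

theorem chb_inv (x : ℝ) (n : ℕ) :
    chb x (n + 1) ^ 2 - 2 * x * chb x (n + 1) * chb x n + chb x n ^ 2 = 1 := by
  induction n with
  | zero => simp
  | succ n ih =>
    rw [chb_succ_succ]
    nlinarith [ih]

theorem chb_cos (t : ℝ) (n : ℕ) : chb (cos t) n * sin t = sin (n * t) := by
  have key : ∀ n : ℕ, chb (cos t) n * sin t = sin (n * t) ∧
      chb (cos t) (n + 1) * sin t = sin ((n + 1 : ℕ) * t) := by
    intro n
    induction n with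
    | zero => simp
    | succ n ih =>
      refine ⟨ih.2, ?_⟩
      rw [chb_succ_succ]
      have h1 : sin (((n + 1 + 1 : ℕ) : ℝ) * t) + sin ((n : ℝ) * t)
          = 2 * cos t * sin (((n + 1 : ℕ) : ℝ) * t) := by
        have e1 : ((n + 1 + 1 : ℕ) : ℝ) * t = ((n + 1 : ℕ) : ℝ) * t + t := by
          push_cast; ring
        have e2 : (n : ℝ) * t = ((n + 1 : ℕ) : ℝ) * t - t := by
          push_cast; ring
        rw [e1, e2, sin_add, sin_sub]
        ring
      have h2 := ih.1
      have h3 := ih.2
      linear_combination 2 * cos t * h3 - h2 - h1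
  exact (key n).1

theorem chb_natCast (n : ℕ) : chb 1 n = n := by
  have key : ∀ n : ℕ, chb 1 n = n ∧ chb 1 (n + 1) = (n + 1 : ℕ) := by
    intro n
    induction n with
    | zero => simp
    | succ n ih =>
      refine ⟨ih.2, ?_⟩
      rw [chb_succ_succ, ih.1, ih.2]
      push_cast
      ring
  exact (key n).1

/-- The off-diagonal cosine for the label `m` (with `m = 0` standing for infinity). -/
noncomputable def cl (m : ℕ) : ℝ := cos (π / m)

theorem cl_zero : cl 0 = 1 := by simp [cl]

theorem cl_one : cl 1 = -1 := by simp [cl]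

theorem cl_nonneg {m : ℕ} (hm : m ≠ 1) : 0 ≤ cl m := by
  rcases Nat.eq_zero_or_pos m with rfl | h0
  · rw [cl_zero]; norm_num
  · have h2 : (2 : ℝ) ≤ m := by
      have : 2 ≤ m := by omega
      exact_mod_cast this
    apply cos_nonneg_of_neg_pi_div_two_le_of_le
    · have : 0 ≤ π / m := by positivity
      linarith [pi_pos]
    · rw [div_le_div_iff₀ (by linarith) (by norm_num)]
      nlinarith [pi_pos]

theorem cl_le_one (m : ℕ) : cl m ≤ 1 := cos_le_one _

theorem neg_one_le_cl (m : ℕ) : -1 ≤ cl m := neg_one_le_cos _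

theorem sin_pi_div_pos {m : ℕ} (hm : 2 ≤ m) : 0 < sin (π / m) := by
  have h2 : (2 : ℝ) ≤ m := by exact_mod_cast hm
  apply sin_pos_of_pos_of_lt_pi
  · have := pi_pos
    positivity
  · rw [div_lt_iff₀ (by linarith)]
    nlinarith [pi_pos]

/-- The values are nonnegative up to the label. -/
theorem chb_nonneg {m k : ℕ} (hm : m ≠ 1) (hk : m = 0 ∨ k ≤ m) : 0 ≤ chb (cl m) k := by
  rcases Nat.eq_zero_or_pos m with rfl | h0
  · rw [cl_zero, chb_natCast]; positivity
  · have hm2 : 2 ≤ m := by omega
    have hk' : k ≤ m := by omega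
    have hs := sin_pi_div_pos hm2
    have h := chb_cos (π / m) k
    have h3 : 0 ≤ sin ((k : ℝ) * (π / m)) := by
      apply sin_nonneg_of_nonneg_of_le_pi
      · have := pi_pos
        positivity
      · have hm' : (0 : ℝ) < m := by exact_mod_cast h0
        have hk'' : (k : ℝ) ≤ m := by exact_mod_cast hk'
        calc (k : ℝ) * (π / m) ≤ m * (π / m) := by
              apply mul_le_mul_of_nonneg_right hk''
              have := pi_pos
              positivity
          _ = π := by field_simp
    rw [← h] at h3
    exact nonneg_of_mul_nonneg_left h3 hs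

/-- The values are positive strictly before the label. -/
theorem chb_pos {m k : ℕ} (hm : m ≠ 1) (h0k : 0 < k) (hk : m = 0 ∨ k < m) :
    0 < chb (cl m) k := by
  rcases Nat.eq_zero_or_pos m with rfl | h0
  · rw [cl_zero, chb_natCast]; exact_mod_cast h0k
  · have hm2 : 2 ≤ m := by omega
    have hk' : k < m := by omega
    have hs := sin_pi_div_pos hm2
    have h := chb_cos (π / m) k
    have h3 : 0 < sin ((k : ℝ) * (π / m)) := by
      have hm' : (0 : ℝ) < m := by exact_mod_cast h0
      have hk0 : (0 : ℝ) < k := by exact_mod_cast h0k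
      apply sin_pos_of_pos_of_lt_pi
      · have := pi_pos
        positivity
      · have hk'' : (k : ℝ) < m := by exact_mod_cast hk'
        calc (k : ℝ) * (π / m) < m * (π / m) := by
              apply mul_lt_mul_of_pos_right hk''
              have := pi_pos
              positivity
          _ = π := by field_simp
    rw [← h] at h3
    exact (mul_pos_iff_of_pos_right hs).mp h3

theorem chb_label {m : ℕ} (hm : m ≠ 1) (h0 : m ≠ 0) : chb (cl m) m = 0 := by
  have hm2 : 2 ≤ m := by omega
  have hs := sin_pi_div_pos hm2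
  have h := chb_cos (π / m) m
  have hm' : (m : ℝ) ≠ 0 := by exact_mod_cast h0
  have e : (m : ℝ) * (π / m) = π := by field_simp
  rw [e, sin_pi] at h
  rcases mul_eq_zero.mp h with h | h
  · exact h
  · exact absurd h hs.ne'

section refl

variable {U : Type*} [AddCommGroup U] [Module ℝ U]

/-- The reflection `v ↦ v - 2 f(v) a`. -/
noncomputable def refl (f : U →ₗ[ℝ] ℝ) (a : U) : Module.End ℝ U :=
  LinearMap.id - (2 : ℝ) • f.smulRight a

theorem refl_apply (f : U →ₗ[ℝ] ℝ) (a v : U) : refl f a v = v - (2 * f v) • a := by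
  simp [refl, smul_smul]

theorem refl_sq {f : U →ₗ[ℝ] ℝ} {a : U} (h : f a = 1) : refl f a * refl f a = 1 := by
  ext v
  simp only [Module.End.mul_apply, Module.End.one_apply, refl_apply, map_sub, map_smul, h]
  match_scalars
  · simp
  · simp; ring

/-- Powers of the product of two reflections. -/
theorem refl_mul_pow {f g : U →ₗ[ℝ] ℝ} {a b : U} {x : ℝ} (hfa : f a = 1) (hgb : g b = 1)
    (hfb : f b = -x) (hga : g a = -x) (n : ℕ) (v : U) :
    ((refl f a * refl g b) ^ n) v = v
      - (2 * chb x n * (chb x (n + 1) * g v + chb x n * f v)) • a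
      - (2 * chb x n * (chb x n * g v + (2 * x * chb x n - chb x (n + 1)) * f v)) • b := by
  induction n with
  | zero => simp
  | succ n ih =>
    rw [pow_succ', Module.End.mul_apply, ih, Module.End.mul_apply, refl_apply, refl_apply]
    simp only [map_sub, map_smul, hfa, hgb, hfb, hga, smul_eq_mul, chb_succ_succ]
    have hinv := chb_inv x n
    set p := chb x (n + 1)
    set q := chb x n
    match_scalars
    · ring
    · linear_combination (4 * x * g v + 2 * f v) * hinv
    · linear_combination (2 * g v) * hinv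

end refl

end Pool.Agent.Helper63.TD
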