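import Pool.Agent.Helper9.TD.Defs

/-!
# Coverings of chamber systems: transport permutations
-/

set_option autoImplicit false

namespace Pool.Agent.Helper63.TD

open Relation

section

variable {S C D : Type}

/-- Galleries with types in `J`. -/
def Q (B : S → D → D → Prop) (J : Finset S) : D → D → Prop :=
  ReflTransGen fun x y => ∃ s ∈ J, B s x y

theorem Q_mono {B : S → D → D → Prop} {J J' : Finset S} (h : J ⊆ J') {x y : D} (hxy : Q B J x y) :
    Q B J' x y := by
  induction hxy with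
  | refl => exact ReflTransGen.refl
  | tail _ h2 ih =>
    obtain ⟨s, hs, h'⟩ := h2
    exact ReflTransGen.tail ih ⟨s, h hs, h'⟩

theorem Q_symm {B : S → D → D → Prop} (hB : ∀ s x y, B s x y → B s y x) {J : Finset S} {x y : D}
    (hxy : Q B J x y) : Q B J y x := by
  induction hxy with
  | refl => exact ReflTransGen.refl
  | tail _ h2 ih =>
    obtain ⟨s, hs, h⟩ := h2
    exact ReflTransGen.head ⟨s, hs, hB _ _ _ h⟩ ih

theorem Q_trans {B : S → D → D → Prop} {J : Finset S} {x y z : D} (h1 : Q B J x y)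
    (h2 : Q B J y z) : Q B J x z := ReflTransGen.trans h1 h2

theorem Q_empty {B : S → D → D → Prop} {x y : D} (h : Q B ∅ x y) : x = y := by
  induction h with
  | refl => rfl
  | tail _ h2 _ =>
    obtain ⟨s, hs, _⟩ := h2
    simp at hs

/-- The canonical representative in a class of `Q A J`. -/
noncomputable def rp (A : S → C → C → Prop) (J : Finset S) (c : C) : C := (Quot.mk (Q A J) c).out

theorem Q_equiv {A : S → C → C → Prop} (hA : ∀ s x y, A s x y → A s y x) (J : Finset S) :
    Equivalence (Q A J) :=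
  ⟨fun _ => ReflTransGen.refl, fun h => Q_symm hA h, fun h1 h2 => Q_trans h1 h2⟩

theorem Q_rp {A : S → C → C → Prop} (hA : ∀ s x y, A s x y → A s y x) (J : Finset S) (c : C) :
    Q A J c (rp A J c) := by
  have h : Quot.mk (Q A J) (rp A J c) = Quot.mk (Q A J) c := Quot.out_eq _
  exact (Q_equiv hA J).eqvGen_iff.mp ((Quot.eqvGen_exact h).symm)

theorem rp_eq {A : S → C → C → Prop} {J : Finset S} {c d : C} (h : Q A J c d) :
    rp A J c = rp A J d := by
  rw [rp, rp, Quot.sound h]

variable (A : S → C → C → Prop) (B : S → D → D → Prop) (π : D → C)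

/-- The data of a covering. -/
structure Cv : Prop where
  symA : ∀ s x y, A s x y → A s y x
  sym : ∀ s x y, B s x y → B s y x
  hom : ∀ s x y, B s x y → A s (π x) (π y)
  lift : ∀ s x c, A s (π x) c → ∃ y, π y = c ∧ B s x y

/-- Unique lifts of the galleries with types in `J`. -/
def Uq (J : Finset S) : Prop := ∀ x y, Q B J x y → π x = π y → x = y

variable {A B π}

theorem Cv.hom_Q (h : Cv A B π) {J : Finset S} {x y : D} (hxy : Q B J x y) :
    Q A J (π x) (π y) := by
  induction hxy with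
  | refl => exact ReflTransGen.refl
  | tail _ h2 ih =>
    obtain ⟨s, hs, h'⟩ := h2
    exact ReflTransGen.tail ih ⟨s, hs, h.hom _ _ _ h'⟩

theorem Cv.lift_Q (h : Cv A B π) {J : Finset S} {x : D} {c : C} (hc : Q A J (π x) c) :
    ∃ y, π y = c ∧ Q B J x y := by
  induction hc with
  | refl => exact ⟨x, rfl, ReflTransGen.refl⟩
  | tail _ h2 ih =>
    obtain ⟨s, hs, h'⟩ := h2
    obtain ⟨y, hy, hxy⟩ := ih
    subst hy
    obtain ⟨z, hz, hyz⟩ := h.lift _ _ _ h'
    exact ⟨z, hz, ReflTransGen.tail hxy ⟨s, hs, hyz⟩⟩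

/-- Coordinates on the fibre over `c`. -/
structure Crd (π : D → C) {F : Type} (b : F → D) (c : C) : Prop where
  proj : ∀ x, π (b x) = c
  inj : Function.Injective b
  surj : ∀ y, π y = c → ∃ x, b x = y

/-- Coordinates are transported along a panel. -/
theorem Cv.crd_step (h : Cv A B π) {F : Type} {s : S} (hu : Uq B π {s}) {c d : C}
    (hcd : A s c d) (hc : ∃ b : F → D, Crd π b c) : ∃ b : F → D, Crd π b d := by
  obtain ⟨b, hb⟩ := hc
  have h1 : ∀ x, ∃ y, π y = d ∧ B s (b x) y := by
    intro x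
    apply h.lift
    rw [hb.proj]
    exact hcd
  choose b' hb1 hb2 using h1
  refine ⟨b', hb1, ?_, ?_⟩
  · intro x y hxy
    apply hb.inj
    apply hu
    · have e1 := hb2 x
      have e2 := hb2 y
      rw [← hxy] at e2
      exact ReflTransGen.tail (ReflTransGen.single ⟨s, by simp, e1⟩)
        ⟨s, by simp, h.sym _ _ _ e2⟩
    · rw [hb.proj, hb.proj]
  · intro y hy
    obtain ⟨z, hz, hyz⟩ := h.lift s y c (by rw [hy]; exact h.symA _ _ _ hcd)
    obtain ⟨x, rfl⟩ := hb.surj z hz
    refine ⟨x, ?_⟩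
    apply hu
    · exact ReflTransGen.tail (ReflTransGen.single ⟨s, by simp, h.sym _ _ _ (hb2 x)⟩)
        ⟨s, by simp, h.sym _ _ _ hyz⟩
    · rw [hb1, hy]

theorem Cv.exists_crd (h : Cv A B π) (hu : ∀ s, Uq B π {s}) (c₀ : C) :
    ∃ β : C → {y : D // π y = c₀} → D,
      ∀ c, ReflTransGen (fun a b => ∃ s, A s a b) c₀ c → Crd π (β c) c := by
  have key : ∀ c, ReflTransGen (fun a b => ∃ s, A s a b) c₀ c →
      ∃ b : {y : D // π y = c₀} → D, Crd π b c := by
    intro c hc
    induction hc with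
    | refl =>
      exact ⟨Subtype.val, fun x => x.2, Subtype.val_injective, fun y hy => ⟨⟨y, hy⟩, rfl⟩⟩
    | tail _ h2 ih =>
      obtain ⟨s, hs⟩ := h2
      exact h.crd_step (hu s) hs ih
  classical
  refine ⟨fun c => if hc : ReflTransGen (fun a b => ∃ s, A s a b) c₀ c then
    (key c hc).choose else Subtype.val, ?_⟩
  intro c hc
  simp only [hc, dif_pos]
  exact (key c hc).choose_spec

/-- `σ` is the transport from `d` to `c`. -/
def Gd (B : S → D → D → Prop) {F : Type} (b b' : F → D) (J : Finset S) (σ : Equiv.Perm F) : Prop :=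
  ∀ x, Q B J (b (σ x)) (b' x)

theorem Cv.exists_gd (h : Cv A B π) {F : Type} {b b' : F → D} {J : Finset S} (hu : Uq B π J)
    {c d : C} (hb : Crd π b c) (hb' : Crd π b' d) (hcd : Q A J c d) :
    ∃ σ : Equiv.Perm F, Gd B b b' J σ := by
  have h1 : ∀ x, ∃ y, Q B J (b y) (b' x) := by
    intro x
    obtain ⟨z, hz, hxz⟩ := h.lift_Q (x := b' x) (c := c)
      (by rw [hb'.proj]; exact Q_symm h.symA hcd)
    obtain ⟨y, rfl⟩ := hb.surj z hz
    exact ⟨y, Q_symm h.sym hxz⟩
  choose f hf using h1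
  have hbij : Function.Bijective f := by
    constructor
    · intro x y hxy
      apply hb'.inj
      apply hu
      · have e1 := hf x
        have e2 := hf y
        rw [← hxy] at e2
        exact Q_trans (Q_symm h.sym e1) e2
      · rw [hb'.proj, hb'.proj]
    · intro y
      obtain ⟨z, hz, hyz⟩ := h.lift_Q (x := b y) (c := d) (by rw [hb.proj]; exact hcd)
      obtain ⟨x, rfl⟩ := hb'.surj z hz
      refine ⟨x, ?_⟩
      apply hb.inj
      apply hu
      · exact Q_trans (hf x) (Q_symm h.sym hyz)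
      · rw [hb.proj, hb.proj]
  exact ⟨Equiv.ofBijective f hbij, fun x => hf x⟩

theorem Cv.gd_unique (h : Cv A B π) {F : Type} {b b' : F → D} {J : Finset S} (hu : Uq B π J)
    {c : C} (hb : Crd π b c) {σ σ' : Equiv.Perm F} (h1 : Gd B b b' J σ)
    (h2 : Gd B b b' J σ') : σ = σ' := by
  ext x
  apply hb.inj
  apply hu
  · exact Q_trans (h1 x) (Q_symm h.sym (h2 x))
  · rw [hb.proj, hb.proj]

theorem Gd.mono {F : Type} {b b' : F → D} {J J' : Finset S} (hJ : J ⊆ J') {σ : Equiv.Perm F}
    (h : Gd B b b' J σ) : Gd B b b' J' σ := fun x => Q_mono hJ (h x)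

theorem Gd.mul {F : Type} {b b' b'' : F → D} {J : Finset S} {σ σ' : Equiv.Perm F}
    (h : Gd B b b' J σ) (h' : Gd B b' b'' J σ') : Gd B b b'' J (σ * σ') :=
  fun x => Q_trans (h (σ' x)) (h' x)

end

end Pool.Agent.Helper63.TD
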