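import Pool.Agent.Helper63.TD.Geo

/-!
# Descents in Coxeter groups without finite subsystems of rank three
-/

namespace Pool.Agent.Helper63.TD

open Real CoxeterSystem

variable {S : Type*} {M : CoxeterMatrix S} {W : Type*} [Group W] (C : CoxeterSystem M W)

/-- No three generators generate a finite Coxeter group. The label infinity is `0`, with inverse `0`. -/
def TwoDim (M : CoxeterMatrix S) : Prop :=
  ∀ s t u, s ≠ t → s ≠ u → t ≠ u → (M s t : ℝ)⁻¹ + (M s u : ℝ)⁻¹ + (M t u : ℝ)⁻¹ ≤ 1

theorem TwoDim.of_nat (h : ∀ s t u, s ≠ t → s ≠ u → t ≠ u → M s t ≠ 0 → M s u ≠ 0 → M t u ≠ 0 →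
    M s u * M t u + M s t * M t u + M s t * M s u ≤ M s t * M s u * M t u) : TwoDim M := by
  intro s t u hst hsu htu
  have key : ∀ m n : ℕ, m ≠ 1 → n ≠ 1 → (m : ℝ)⁻¹ + (n : ℝ)⁻¹ ≤ 1 := by
    intro m n hm hn
    have h1 : ∀ m : ℕ, m ≠ 1 → (m : ℝ)⁻¹ ≤ 1 / 2 := by
      intro m hm
      rcases Nat.eq_zero_or_pos m with rfl | h0
      · simp
      · have : (2 : ℝ) ≤ m := by
          have : 2 ≤ m := by omega
          exact_mod_cast this
        rw [one_div]
        exact inv_anti₀ (by norm_num) this
    have := h1 m hm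
    have := h1 n hn
    linarith
  have h1 := M.off_diagonal s t hst
  have h2 := M.off_diagonal s u hsu
  have h3 := M.off_diagonal t u htu
  by_cases e1 : M s t = 0
  · rw [e1]
    have := key _ _ h2 h3
    simpa using this
  by_cases e2 : M s u = 0
  · rw [e2]
    have := key _ _ h1 h3
    simpa using this
  by_cases e3 : M t u = 0
  · rw [e3]
    have := key _ _ h1 h2
    simpa using this
  have h := h s t u hst hsu htu e1 e2 e3
  have p1 : (0 : ℝ) < M s t := by exact_mod_cast Nat.pos_of_ne_zero e1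
  have p2 : (0 : ℝ) < M s u := by exact_mod_cast Nat.pos_of_ne_zero e2
  have p3 : (0 : ℝ) < M t u := by exact_mod_cast Nat.pos_of_ne_zero e3
  have h' : (M s u * M t u + M s t * M t u + M s t * M s u : ℝ) ≤ M s t * M s u * M t u := by
    exact_mod_cast h
  have e : (M s t : ℝ)⁻¹ + (M s u : ℝ)⁻¹ + (M t u : ℝ)⁻¹
      = (M s u * M t u + M s t * M t u + M s t * M s u : ℝ) / (M s t * M s u * M t u) := by
    field_simp
  rw [e, div_le_one (by positivity)]
  exact h'

theorem cl_nonneg_of_ne {s t : S} (h : s ≠ t) : 0 ≤ cl (M s t) := cl_nonneg (M.off_diagonal s t h)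

/-- The vector `a_t - B(a_s, a_t) a_s`, the component of `a_t` orthogonal to `a_s`. -/
noncomputable def orth (M : CoxeterMatrix S) (s t : S) : S →₀ ℝ :=
  Finsupp.single t 1 + cl (M s t) • Finsupp.single s 1

/-- The vector used for the panel case. -/
noncomputable def kvec (M : CoxeterMatrix S) (s t u : S) : S →₀ ℝ :=
  sin (π / M s u) • orth M s t + sin (π / M s t) • orth M s u

theorem sin_label_nonneg (m : ℕ) : 0 ≤ sin (π / m) := by
  rcases Nat.eq_zero_or_pos m with rfl | h0
  · simp
  · have hm : (1 : ℝ) ≤ m := by exact_mod_cast h0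
    apply sin_nonneg_of_nonneg_of_le_pi
    · have := pi_pos
      positivity
    · rw [div_le_iff₀ (by linarith)]
      nlinarith [pi_pos]

theorem sin_label_pos {s t : S} (h : s ≠ t) (h0 : M s t ≠ 0) : 0 < sin (π / M s t) := by
  have := M.off_diagonal s t h
  exact sin_pi_div_pos (by omega)

theorem single_nonneg' (s : S) : (0 : S →₀ ℝ) ≤ Finsupp.single s 1 :=
  Finsupp.single_nonneg.mpr zero_le_one

theorem smul_nonneg' {r : ℝ} (hr : 0 ≤ r) {v : S →₀ ℝ} (hv : 0 ≤ v) : 0 ≤ r • v := by
  intro t
  have := hv t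
  simp only [Finsupp.coe_zero, Pi.zero_apply] at this
  simpa using mul_nonneg hr this

theorem orth_nonneg {s t : S} (h : s ≠ t) : 0 ≤ orth M s t :=
  add_nonneg (single_nonneg' t) (smul_nonneg' (cl_nonneg_of_ne h) (single_nonneg' s))

theorem kvec_nonneg {s t u : S} (hst : s ≠ t) (hsu : s ≠ u) : 0 ≤ kvec M s t u :=
  add_nonneg (smul_nonneg' (sin_label_nonneg _) (orth_nonneg hst))
    (smul_nonneg' (sin_label_nonneg _) (orth_nonneg hsu))

theorem bil_single_one (s t : S) : bil M s (Finsupp.single t 1) = - cl (M s t) := by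
  rw [bil_single]; ring

theorem bil_orth (i s t : S) : bil M i (orth M s t) = - cl (M i t) - cl (M s t) * cl (M i s) := by
  rw [orth, map_add, map_smul, bil_single_one, bil_single_one, smul_eq_mul]
  ring

theorem angles_le (hM : TwoDim M) {s t u : S} (hst : s ≠ t) (hsu : s ≠ u) (htu : t ≠ u) :
    π / M s t + π / M s u + π / M t u ≤ π := by
  have h := hM s t u hst hsu htu
  have : π / M s t + π / M s u + π / M t u
      = π * ((M s t : ℝ)⁻¹ + (M s u : ℝ)⁻¹ + (M t u : ℝ)⁻¹) := by
    ring
  rw [this]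
  nlinarith [pi_pos]

theorem neg_cos_add_le (hM : TwoDim M) {s t u : S} (hst : s ≠ t) (hsu : s ≠ u) (htu : t ≠ u) :
    - cos (π / M s t + π / M s u) ≤ cos (π / M t u) := by
  have h := angles_le hM hst hsu htu
  rw [← cos_pi_sub]
  have h0 : 0 ≤ π / M s t := by have := pi_pos; positivity
  have h1 : 0 ≤ π / M s u := by have := pi_pos; positivity
  have h2 : 0 ≤ π / M t u := by have := pi_pos; positivity
  apply cos_le_cos_of_nonneg_of_le_pi h2 _ (by linarith)
  linarith

theorem bil_kvec (hM : TwoDim M) {s t u : S} (hst : s ≠ t) (hsu : s ≠ u) (htu : t ≠ u) (i : S) :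
    bil M i (kvec M s t u) ≤ 0 := by
  have hs1 := sin_label_nonneg (M s t)
  have hs2 := sin_label_nonneg (M s u)
  have hc := neg_cos_add_le hM hst hsu htu
  have ha : cos (π / M s t) ^ 2 + sin (π / M s t) ^ 2 = 1 := by
    rw [add_comm]; exact sin_sq_add_cos_sq _
  have hb : cos (π / M s u) ^ 2 + sin (π / M s u) ^ 2 = 1 := by
    rw [add_comm]; exact sin_sq_add_cos_sq _
  rw [cos_add] at hc
  rw [kvec, map_add, map_smul, map_smul, bil_orth, bil_orth, smul_eq_mul, smul_eq_mul]
  by_cases h1 : i = s
  · subst h1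
    rw [M.diagonal, cl_one]
    apply le_of_eq
    ring
  by_cases h2 : i = t
  · subst h2
    rw [M.diagonal, cl_one, M.symmetric i s]
    simp only [cl]
    have e : sin (π / M s u) * (- -1 - cos (π / M s i) * cos (π / M s i))
        + sin (π / M s i) * (- cos (π / M i u) - cos (π / M s u) * cos (π / M s i))
        = sin (π / M s i) * (-(cos (π / M s i) * cos (π / M s u) - sin (π / M s i) * sin (π / M s u))
          - cos (π / M i u)) := by
      linear_combination - sin (π / M s u) * ha
    rw [e]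
    exact mul_nonpos_of_nonneg_of_nonpos hs1 (by linarith)
  by_cases h3 : i = u
  · subst h3
    rw [M.diagonal, cl_one, M.symmetric i s, M.symmetric i t]
    simp only [cl]
    have e : sin (π / M s i) * (- cos (π / M t i) - cos (π / M s t) * cos (π / M s i))
        + sin (π / M s t) * (- -1 - cos (π / M s i) * cos (π / M s i))
        = sin (π / M s i) * (-(cos (π / M s t) * cos (π / M s i) - sin (π / M s t) * sin (π / M s i))
          - cos (π / M t i)) := by
      linear_combination - sin (π / M s t) * hb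
    rw [e]
    exact mul_nonpos_of_nonneg_of_nonpos hs2 (by linarith)
  have g1 := cl_nonneg_of_ne (M := M) h1
  have g2 := cl_nonneg_of_ne (M := M) h2
  have g3 := cl_nonneg_of_ne (M := M) h3
  have g4 := cl_nonneg_of_ne (M := M) hst
  have g5 := cl_nonneg_of_ne (M := M) hsu
  have := mul_nonneg hs2 (add_nonneg g2 (mul_nonneg g4 g1))
  have := mul_nonneg hs1 (add_nonneg g3 (mul_nonneg g5 g1))
  nlinarith

/-- `w k ≥ k` for the vector `k` of three generators. -/
theorem kvec_le_act (hM : TwoDim M) {s t u : S} (hst : s ≠ t) (hsu : s ≠ u) (htu : t ≠ u) (w : W) :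
    kvec M s t u ≤ act C w (kvec M s t u) :=
  le_act C (bil_kvec hM hst hsu htu) w

/-- Two descents have a finite label. -/
theorem label_ne_zero_of_descents {w : W} {s t : S} (hst : s ≠ t) (hs : C.IsRightDescent w s)
    (ht : C.IsRightDescent w t) : M s t ≠ 0 := by
  intro h0
  have hk : ∀ i, bil M i (Finsupp.single s 1 + Finsupp.single t 1) ≤ 0 := by
    intro i
    rw [map_add, bil_single_one, bil_single_one]
    by_cases h1 : i = s
    · subst h1
      rw [M.diagonal, h0, cl_one, cl_zero]; norm_num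
    by_cases h2 : i = t
    · subst h2
      rw [M.symmetric, M.diagonal, h0, cl_one, cl_zero]; norm_num
    have g1 := cl_nonneg_of_ne (M := M) h1
    have g2 := cl_nonneg_of_ne (M := M) h2
    linarith
  have h1 := le_act C hk w
  rw [map_add] at h1
  have h2 := root_nonpos C hs
  have h3 := root_nonpos C ht
  have h4 := (h1 s)
  have h5 := (h2 s)
  have h6 := (h3 s)
  simp only [Finsupp.coe_add, Pi.add_apply, Finsupp.single_eq_same, Finsupp.coe_zero,
    Pi.zero_apply, root] at h4 h5 h6
  rw [Finsupp.single_eq_of_ne hst] at h4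
  linarith

/-- No element has three descents. -/
theorem not_three_descents (hM : TwoDim M) {w : W} {s t u : S} (hst : s ≠ t) (hsu : s ≠ u)
    (htu : t ≠ u) (hs : C.IsRightDescent w s) (ht : C.IsRightDescent w t)
    (hu : C.IsRightDescent w u) : False := by
  have h0 := label_ne_zero_of_descents C hst hs ht
  have h1 := label_ne_zero_of_descents C hsu hs hu
  have p1 := sin_label_pos hst h0
  have p2 := sin_label_pos hsu h1
  have h2 := kvec_le_act C hM hst hsu htu w t
  have r1 := root_nonpos C hs t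
  have r2 := root_nonpos C ht t
  have r3 := root_nonpos C hu t
  have g4 := cl_nonneg_of_ne (M := M) hst
  have g5 := cl_nonneg_of_ne (M := M) hsu
  simp only [kvec, orth, map_add, map_smul, Finsupp.coe_add, Pi.add_apply, Finsupp.coe_smul,
    Pi.smul_apply, smul_eq_mul] at h2
  simp only [root, Finsupp.coe_zero, Pi.zero_apply] at r1 r2 r3
  rw [Finsupp.single_eq_same, Finsupp.single_eq_of_ne hst.symm,
    Finsupp.single_eq_of_ne htu] at h2
  have m1 := mul_nonneg g4 (neg_nonneg.mpr r1)
  have m2 := mul_nonneg g5 (neg_nonneg.mpr r1)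
  nlinarith

end Pool.Agent.Helper63.TD
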