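import Pool.Agent.Helper63.TD.Rep

/-!
# The geometric representation: positivity of roots, displacement, dominance
-/

namespace Pool.Agent.Helper63.TD

open Real CoxeterSystem

variable {S : Type*} {M : CoxeterMatrix S} {W : Type*} [Group W] (C : CoxeterSystem M W)

section cone

variable {U : Type*} [AddCommGroup U] [Module ℝ U] (D : Datum M U)

/-- If `s` is not a right descent of `w` then `w a_s` lies in the cone spanned by the simple roots. -/
theorem Datum.cone_rep (Q : U → Prop) (hadd : ∀ u v, Q u → Q v → Q (u + v))
    (hsmul : ∀ (r : ℝ) (u : U), 0 ≤ r → Q u → Q (r • u)) (ha : ∀ s, Q (D.a s))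
    {w : W} {s : S} (h : ¬ C.IsRightDescent w s) : Q (D.rep C w (D.a s)) := by
  induction hn : C.length w using Nat.strong_induction_on generalizing w s with
  | _ n ih =>
    by_cases hw : w = 1
    · subst hw
      rw [D.rep_one_apply]
      exact ha s
    · obtain ⟨t, ht⟩ := C.exists_rightDescent_of_ne_one hw
      have hst : s ≠ t := by
        rintro rfl
        exact h ht
      obtain ⟨v, x, y, k, hxy, hwv, hlen, hs', ht'⟩ := exists_decomp C s t w
      have hk : k ≠ 0 := by
        rintro rfl
        have e : w = v := by rw [hwv]; simp [alternatingWord]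
        rw [e] at ht
        exact ht' ht
      obtain ⟨k, rfl⟩ : ∃ k', k = k' + 1 := ⟨k - 1, by omega⟩
      -- the last letter is `t`
      have hy : x = s ∧ y = t := by
        rcases hxy with hxy | ⟨rfl, rfl⟩
        · exact hxy
        · exfalso
          apply h
          rw [C.isRightDescent_iff]
          have e : w * C.simple y = v * C.wordProd (alternatingWord y x k) := by
            rw [hwv, alternatingWord_succ, wordProd_concat]
            simp [mul_assoc]
          have h1 : C.length (w * C.simple y) ≤ C.length v + k := by
            rw [e]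
            refine (C.length_mul_le _ _).trans ?_
            have := C.length_wordProd_le (alternatingWord y x k)
            rw [length_alternatingWord] at this
            omega
          rcases C.length_mul_simple w y with h2 | h2 <;> omega
      obtain ⟨rfl, rfl⟩ := hy
      have hlv : C.length v < n := by omega
      have hl2 : C.length (v * C.wordProd (alternatingWord y x (k + 1 + 1)))
          = C.length v + (k + 1 + 1) := by
        rw [alternatingWord_succ, wordProd_concat, ← mul_assoc, ← hwv]
        have := (C.not_isRightDescent_iff).mp h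
        omega
      have hlab := le_label C hl2
      rw [M.symmetric] at hlab
      have hM1 : M x y ≠ 1 := M.off_diagonal x y hst
      have hQs := ih _ hlv hs' rfl
      have hQt := ih _ hlv ht' rfl
      rw [hwv, D.rep_mul_apply, D.rep_alt]
      split_ifs
      · rw [map_add, map_smul, map_smul]
        exact hadd _ _ (hsmul _ _ (chb_nonneg hM1 (by omega)) hQs)
          (hsmul _ _ (chb_nonneg hM1 (by omega)) hQt)
      · rw [map_add, map_smul, map_smul]
        exact hadd _ _ (hsmul _ _ (chb_nonneg hM1 (by omega)) hQs)
          (hsmul _ _ (chb_nonneg hM1 (by omega)) hQt)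

theorem not_isRightDescent_mul {w : W} {s : S} (h : C.IsRightDescent w s) :
    ¬ C.IsRightDescent (w * C.simple s) s :=
  (C.isRightDescent_iff_not_isRightDescent_mul).mp h

theorem isRightDescent_mul {w : W} {s : S} (h : ¬ C.IsRightDescent w s) :
    C.IsRightDescent (w * C.simple s) s := by
  by_contra hc
  exact h ((C.isRightDescent_iff_not_isRightDescent_mul).mpr hc)

/-- If `s` is a right descent of `w` then `- w a_s` lies in the cone spanned by the simple roots. -/
theorem Datum.cone_rep_neg (Q : U → Prop) (hadd : ∀ u v, Q u → Q v → Q (u + v))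
    (hsmul : ∀ (r : ℝ) (u : U), 0 ≤ r → Q u → Q (r • u)) (ha : ∀ s, Q (D.a s))
    {w : W} {s : S} (h : C.IsRightDescent w s) : Q (- D.rep C w (D.a s)) := by
  have h1 := D.cone_rep C Q hadd hsmul ha (not_isRightDescent_mul C h)
  rwa [D.rep_mul_simple_self] at h1

end cone

/-- The geometric representation. -/
noncomputable def geo (M : CoxeterMatrix S) : Datum M (S →₀ ℝ) where
  a s := Finsupp.single s 1
  f s := Finsupp.linearCombination ℝ (fun t => - cl (M s t))
  fa s t := by simp

/-- The functional `B(a_s, ·)`. -/
noncomputable def bil (M : CoxeterMatrix S) (s : S) : (S →₀ ℝ) →ₗ[ℝ] ℝ := (geo M).f s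

theorem bil_single (s t : S) (r : ℝ) : bil M s (Finsupp.single t r) = - r * cl (M s t) := by
  simp [bil, geo]

/-- The action of `w` on the space of the geometric representation. -/
noncomputable def act (w : W) : (S →₀ ℝ) →ₗ[ℝ] (S →₀ ℝ) := (geo M).rep C w

/-- The root `w a_s`. -/
noncomputable def root (w : W) (s : S) : S →₀ ℝ := act C w (Finsupp.single s 1)

theorem act_one (v : S →₀ ℝ) : act C 1 v = v := (geo M).rep_one_apply C v

theorem act_mul (w w' : W) (v : S →₀ ℝ) : act C (w * w') v = act C w (act C w' v) :=
  (geo M).rep_mul_apply C w w' v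

theorem act_simple (s : S) (v : S →₀ ℝ) :
    act C (C.simple s) v = v - (2 * bil M s v) • Finsupp.single s 1 :=
  (geo M).rep_simple_apply C s v

theorem act_injective (w : W) : Function.Injective (act C w) := (geo M).rep_injective C w

theorem act_mul_simple (w : W) (s : S) (v : S →₀ ℝ) :
    act C (w * C.simple s) v = act C w v - (2 * bil M s v) • root C w s := by
  rw [act_mul, act_simple, map_sub, map_smul]
  rfl

theorem root_one (s : S) : root C 1 s = Finsupp.single s 1 := act_one C _

theorem root_mul_simple_self (w : W) (s : S) : root C (w * C.simple s) s = - root C w s :=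
  (geo M).rep_mul_simple_self C w s

theorem root_mul_simple (w : W) (s t : S) :
    root C (w * C.simple s) t = root C w t + (2 * cl (M s t)) • root C w s := by
  rw [root, act_mul_simple, bil_single]
  simp only [neg_mul, one_mul, mul_neg, neg_smul, sub_neg_eq_add]
  rfl

theorem root_ne_zero (w : W) (s : S) : root C w s ≠ 0 := by
  intro h
  have h1 : act C w (Finsupp.single s 1) = act C w 0 := by rw [map_zero]; exact h
  have h2 := act_injective C w h1
  simp at h2

theorem root_nonneg {w : W} {s : S} (h : ¬ C.IsRightDescent w s) : 0 ≤ root C w s := by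
  apply (geo M).cone_rep C (fun u => 0 ≤ u) (fun u v hu hv => add_nonneg hu hv)
    (fun r u hr hu => ?_) (fun s => ?_) h
  · intro t
    have := hu t
    simp only [Finsupp.coe_zero, Pi.zero_apply] at this
    simpa using mul_nonneg hr this
  · intro t
    simp only [geo, Finsupp.coe_zero, Pi.zero_apply]
    exact Finsupp.single_nonneg.mpr zero_le_one t

theorem root_nonpos {w : W} {s : S} (h : C.IsRightDescent w s) : root C w s ≤ 0 := by
  have h1 := root_nonneg C (not_isRightDescent_mul C h)
  rw [root_mul_simple_self] at h1
  exact neg_nonneg.mp h1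

theorem root_nonneg_iff {w : W} {s : S} : 0 ≤ root C w s ↔ ¬ C.IsRightDescent w s := by
  refine ⟨fun h hd => ?_, root_nonneg C⟩
  exact root_ne_zero C w s (le_antisymm (root_nonpos C hd) h)

theorem root_nonpos_iff {w : W} {s : S} : root C w s ≤ 0 ↔ C.IsRightDescent w s := by
  refine ⟨fun h => ?_, root_nonpos C⟩
  by_contra hd
  exact root_ne_zero C w s (le_antisymm h (root_nonneg C hd))

/-- If `B(a_s, k) ≤ 0` for all `s`, then `k ≤ w k`. -/
theorem le_act {k : S →₀ ℝ} (hk : ∀ s, bil M s k ≤ 0) (w : W) : k ≤ act C w k := by
  induction hn : C.length w using Nat.strong_induction_on generalizing w with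
  | _ n ih =>
    by_cases hw : w = 1
    · subst hw
      rw [act_one]
    · obtain ⟨t, ht⟩ := C.exists_rightDescent_of_ne_one hw
      have h1 := (C.isRightDescent_iff).mp ht
      have h2 := ih _ (by omega) (w * C.simple t) rfl
      have h3 := root_nonneg C (not_isRightDescent_mul C ht)
      have h4 : act C w k = act C (w * C.simple t) k
          - (2 * bil M t k) • root C (w * C.simple t) t := by
        rw [← act_mul_simple, C.simple_mul_simple_cancel_right]
      rw [h4]
      refine h2.trans ?_
      intro s
      have h5 := h3 s
      have h6 := hk t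
      simp only [Finsupp.coe_zero, Pi.zero_apply] at h5
      simp only [Finsupp.coe_sub, Pi.sub_apply, Finsupp.coe_smul, Pi.smul_apply, smul_eq_mul]
      nlinarith

/-- The extended datum: `S →₀ ℝ` and one more vector `(0, 1)`, the weight. -/
noncomputable def ext (M : CoxeterMatrix S) : Datum M ((S →₀ ℝ) × ℝ) where
  a s := (Finsupp.single s 1, 0)
  f s := (bil M s).comp (LinearMap.fst ℝ _ _) + (1 / 2 : ℝ) • LinearMap.snd ℝ _ _
  fa s t := by simp [bil_single]

theorem ext_fst (w : W) (v : S →₀ ℝ) : (ext M).rep C w (v, 0) = (act C w v, 0) := by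
  induction w using C.simple_induction_left with
  | one => rw [(ext M).rep_one_apply, act_one]
  | mul_simple_left w i ih =>
    rw [(ext M).rep_mul_apply, ih, (ext M).rep_simple_apply, act_mul, act_simple]
    simp [ext]

theorem ext_snd (w : W) (u : (S →₀ ℝ) × ℝ) : ((ext M).rep C w u).2 = u.2 := by
  induction w using C.simple_induction_left with
  | one => rw [(ext M).rep_one_apply]
  | mul_simple_left w i ih =>
    have e : ((ext M).a i).2 = 0 := rfl
    rw [(ext M).rep_mul_apply, (ext M).rep_simple_apply, Prod.snd_sub, Prod.smul_snd, e, ih]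
    simp

/-- The displacement `Λ - w Λ` of the weight `Λ` with `B(a_s, Λ) = 1 / 2` for all `s`. -/
noncomputable def disp (w : W) : S →₀ ℝ := - ((ext M).rep C w (0, 1)).1

theorem ext_weight (w : W) : (ext M).rep C w (0, 1) = (- disp C w, 1) := by
  apply Prod.ext
  · simp [disp]
  · rw [ext_snd]

theorem disp_one : disp C 1 = 0 := by
  rw [disp, (ext M).rep_one_apply]; simp

theorem disp_mul (w w' : W) : disp C (w * w') = disp C w + act C w (disp C w') := by
  have h := ext_weight C (w * w')
  have e : ((- disp C w' , 1) : (S →₀ ℝ) × ℝ) = (0, 1) - (disp C w', 0) := by simp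
  rw [(ext M).rep_mul_apply, ext_weight C w', e, map_sub, ext_fst, ext_weight] at h
  have h2 := congrArg Prod.fst h
  simp only [Prod.fst_sub] at h2
  rw [← neg_inj, ← h2]
  abel

theorem disp_simple (s : S) : disp C (C.simple s) = Finsupp.single s 1 := by
  rw [disp, (ext M).rep_simple_apply]
  simp [ext]

theorem disp_mul_simple (w : W) (s : S) : disp C (w * C.simple s) = disp C w + root C w s := by
  rw [disp_mul, disp_simple]
  rfl

theorem disp_nonneg (w : W) : 0 ≤ disp C w := by
  induction hn : C.length w using Nat.strong_induction_on generalizing w with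
  | _ n ih =>
    by_cases hw : w = 1
    · subst hw
      rw [disp_one]
    · obtain ⟨t, ht⟩ := C.exists_rightDescent_of_ne_one hw
      have h1 := (C.isRightDescent_iff).mp ht
      have h2 := ih _ (by omega) (w * C.simple t) rfl
      have h3 := root_nonneg C (not_isRightDescent_mul C ht)
      have h4 := disp_mul_simple C (w * C.simple t) t
      rw [C.simple_mul_simple_cancel_right] at h4
      rw [h4]
      exact add_nonneg h2 h3

end Pool.Agent.Helper63.TD
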