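import Pool.Agent.Helper63.TD.Desc

/-!
# Heights of chambers, panels and residues
-/

namespace Pool.Agent.Helper63.TD

open Real CoxeterSystem

variable {S : Type*} {M : CoxeterMatrix S} {W : Type*} [Group W] (C : CoxeterSystem M W)

/-- The mean of the heights over a residue of label `m` is at `kap m` times the sum of the two roots. -/
noncomputable def kap (m : ℕ) : ℝ := 1 / (2 * (1 - cl m))

theorem cl_lt_one {m : ℕ} (h0 : m ≠ 0) : cl m < 1 := by
  have h1 : (1 : ℝ) ≤ m := by exact_mod_cast Nat.one_le_iff_ne_zero.mpr h0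
  have h2 : 0 < π / m := by
    have := pi_pos
    positivity
  have h3 : π / m ≤ π := by
    rw [div_le_iff₀ (by linarith)]
    nlinarith [pi_pos]
  rw [cl, ← cos_zero]
  exact cos_lt_cos_of_nonneg_of_le_pi le_rfl h3 h2

theorem kap_pos {m : ℕ} (h0 : m ≠ 0) : 0 < kap m := by
  have := cl_lt_one h0
  rw [kap]
  apply one_div_pos.mpr
  linarith

theorem kap_mul {m : ℕ} (h0 : m ≠ 0) : 2 * kap m * (1 - cl m) = 1 := by
  have := cl_lt_one h0
  rw [kap]
  have h : 1 - cl m ≠ 0 := by linarith
  field_simp

variable (μ : (S →₀ ℝ) →ₗ[ℝ] ℝ)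

/-- Height of a chamber. -/
noncomputable def ht0 (w : W) : ℝ := μ (disp C w)

/-- Height of a panel. -/
noncomputable def ht1 (w : W) (s : S) : ℝ := μ (disp C w) + 1 / 2 * μ (root C w s)

/-- Height of a residue of rank two. -/
noncomputable def ht2 (w : W) (s t : S) : ℝ :=
  μ (disp C w) + kap (M s t) * (μ (root C w s) + μ (root C w t))

theorem ht1_mul (w : W) (s : S) : ht1 C μ (w * C.simple s) s = ht1 C μ w s := by
  simp only [ht1, disp_mul_simple, root_mul_simple_self, map_add, map_neg]
  ring

theorem ht2_comm (w : W) (s t : S) : ht2 C μ w s t = ht2 C μ w t s := by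
  simp only [ht2, M.symmetric s t]
  ring

theorem ht2_mul_left (w : W) {s t : S} (h0 : M s t ≠ 0) :
    ht2 C μ (w * C.simple s) s t = ht2 C μ w s t := by
  simp only [ht2, disp_mul_simple, root_mul_simple_self, root_mul_simple, map_add, map_neg,
    map_smul, smul_eq_mul]
  linear_combination - μ (root C w s) * kap_mul h0

theorem ht2_mul_right (w : W) {s t : S} (h0 : M s t ≠ 0) :
    ht2 C μ (w * C.simple t) s t = ht2 C μ w s t := by
  rw [ht2_comm, ht2_comm C μ w s t]
  exact ht2_mul_left C μ w (by rwa [M.symmetric])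

theorem ht1_sub_ht0 (w : W) (s : S) : ht1 C μ w s - ht0 C μ w = 1 / 2 * μ (root C w s) := by
  simp only [ht1, ht0]
  ring

theorem act_orth (w : W) (s t : S) :
    act C w (orth M s t) = root C w t + cl (M s t) • root C w s := by
  rw [orth, map_add, map_smul]
  rfl

theorem ht2_sub_ht1 (w : W) {s t : S} (h0 : M s t ≠ 0) :
    ht2 C μ w s t - ht1 C μ w s = kap (M s t) * μ (act C w (orth M s t)) := by
  simp only [ht1, ht2, act_orth, map_add, map_smul, smul_eq_mul]
  linear_combination (1 / 2 * μ (root C w s)) * kap_mul h0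

theorem nonneg_of_simple (hμ : ∀ s, 0 < μ (Finsupp.single s 1)) {v : S →₀ ℝ} (hv : 0 ≤ v) :
    0 ≤ μ v := by
  have e : v = v.sum (fun s r => r • Finsupp.single s (1 : ℝ)) := by
    conv_lhs => rw [← Finsupp.sum_single v]
    apply Finsupp.sum_congr
    intro s _
    simp
  rw [e, map_finsuppSum]
  apply Finset.sum_nonneg
  intro s _
  show 0 ≤ μ (v s • Finsupp.single s (1 : ℝ))
  rw [map_smul, smul_eq_mul]
  exact mul_nonneg (hv s) (hμ s).le

theorem pos_of_simple (hμ : ∀ s, 0 < μ (Finsupp.single s 1)) {v : S →₀ ℝ} (hv : 0 ≤ v)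
    (h0 : v ≠ 0) : 0 < μ v := by
  have e : v = v.sum (fun s r => r • Finsupp.single s (1 : ℝ)) := by
    conv_lhs => rw [← Finsupp.sum_single v]
    apply Finsupp.sum_congr
    intro s _
    simp
  rw [e, map_finsuppSum]
  apply Finset.sum_pos
  · intro s hs
    show 0 < μ (v s • Finsupp.single s (1 : ℝ))
    rw [map_smul, smul_eq_mul]
    have h1 := hv s
    have h2 : v s ≠ 0 := by simpa using hs
    exact mul_pos (lt_of_le_of_ne h1 h2.symm) (hμ s)
  · simpa [Finsupp.support_nonempty_iff] using h0

theorem root_pos_iff (hμ : ∀ s, 0 < μ (Finsupp.single s 1)) {w : W} {s : S} :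
    0 < μ (root C w s) ↔ ¬ C.IsRightDescent w s := by
  constructor
  · intro h hd
    have h1 := nonneg_of_simple μ hμ (neg_nonneg.mpr (root_nonpos C hd))
    rw [map_neg] at h1
    linarith
  · intro h
    exact pos_of_simple μ hμ (root_nonneg C h) (root_ne_zero C w s)

theorem root_neg_iff (hμ : ∀ s, 0 < μ (Finsupp.single s 1)) {w : W} {s : S} :
    μ (root C w s) < 0 ↔ C.IsRightDescent w s := by
  constructor
  · intro h
    by_contra hd
    have := (root_pos_iff C μ hμ).mpr hd
    linarith
  · intro h
    have h1 := pos_of_simple μ hμ (neg_nonneg.mpr (root_nonpos C h))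
      (neg_ne_zero.mpr (root_ne_zero C w s))
    rw [map_neg] at h1
    linarith

/-- A panel is above a chamber of it iff its type is not a descent of the chamber. -/
theorem ht0_lt_ht1_iff (hμ : ∀ s, 0 < μ (Finsupp.single s 1)) {w : W} {s : S} :
    ht0 C μ w < ht1 C μ w s ↔ ¬ C.IsRightDescent w s := by
  rw [← root_pos_iff C μ hμ, ← sub_pos, ht1_sub_ht0]
  constructor <;> intro h <;> linarith

theorem ht1_lt_ht0_iff (hμ : ∀ s, 0 < μ (Finsupp.single s 1)) {w : W} {s : S} :
    ht1 C μ w s < ht0 C μ w ↔ C.IsRightDescent w s := by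
  rw [← root_neg_iff C μ hμ, ← sub_neg, ht1_sub_ht0]
  constructor <;> intro h <;> linarith

/-- Two components orthogonal to the same root are not both nonpositive. -/
theorem orth_case (hM : TwoDim M) (hμ : ∀ s, 0 < μ (Finsupp.single s 1)) (w : W) {s t u : S}
    (hst : s ≠ t) (hsu : s ≠ u) (htu : t ≠ u) (h1 : M s t ≠ 0) (h2 : M s u ≠ 0)
    (a1 : μ (act C w (orth M s t)) ≤ 0) (a2 : μ (act C w (orth M s u)) ≤ 0) : False := by
  have p1 := sin_label_pos hst h1
  have p2 := sin_label_pos hsu h2
  have hk := kvec_le_act C hM hst hsu htu w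
  have hk0 : 0 < μ (kvec M s t u) := by
    apply pos_of_simple μ hμ (kvec_nonneg hst hsu)
    intro h
    have h' := DFunLike.congr_fun h t
    simp only [kvec, orth, Finsupp.coe_add, Pi.add_apply, Finsupp.coe_smul,
      Pi.smul_apply, smul_eq_mul, Finsupp.coe_zero, Pi.zero_apply, Finsupp.single_eq_same] at h'
    rw [Finsupp.single_eq_of_ne hst.symm, Finsupp.single_eq_of_ne htu] at h'
    simp at h'
    linarith
  have hk1 : μ (kvec M s t u) ≤ μ (act C w (kvec M s t u)) := by
    have := nonneg_of_simple μ hμ (sub_nonneg.mpr hk)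
    rw [map_sub] at this
    linarith
  have hk2 : μ (act C w (kvec M s t u)) = sin (π / M s u) * μ (act C w (orth M s t))
      + sin (π / M s t) * μ (act C w (orth M s u)) := by
    rw [kvec, map_add, map_add, map_smul, map_smul, map_smul, map_smul, smul_eq_mul, smul_eq_mul]
  rw [hk2] at hk1
  have m1 := mul_nonneg p2.le (neg_nonneg.mpr a1)
  have m2 := mul_nonneg p1.le (neg_nonneg.mpr a2)
  linarith

/-- The panel case: two residues around a panel are not both below (or at the height of) the panel. -/
theorem panel_case (hM : TwoDim M) (hμ : ∀ s, 0 < μ (Finsupp.single s 1)) (w : W) {s t u : S}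
    (hst : s ≠ t) (hsu : s ≠ u) (htu : t ≠ u) (h1 : M s t ≠ 0) (h2 : M s u ≠ 0)
    (h3 : ht2 C μ w s t ≤ ht1 C μ w s) (h4 : ht2 C μ w s u ≤ ht1 C μ w s) : False := by
  have e1 := ht2_sub_ht1 C μ w h1
  have e2 := ht2_sub_ht1 C μ w h2
  have k1 := kap_pos h1
  have k2 := kap_pos h2
  refine orth_case C μ hM hμ w hst hsu htu h1 h2 ?_ ?_
  · by_contra hc
    push Not at hc
    have := mul_pos k1 hc
    linarith
  · by_contra hc
    push Not at hc
    have := mul_pos k2 hc
    linarith

section residue

/-- The letters of the alternating word starting with `s`. -/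
def lett (s t : S) (k : ℕ) : S := if Even k then s else t

theorem lett_zero (s t : S) : lett s t 0 = s := by simp [lett]

theorem lett_one (s t : S) : lett s t 1 = t := by simp [lett]

theorem lett_succ (s t : S) (k : ℕ) : lett s t (k + 1) = lett t s k := by
  by_cases hk : Even k <;> simp [lett, hk, parity_simps]

theorem lett_add_two (s t : S) (k : ℕ) : lett s t (k + 2) = lett s t k := by
  rw [lett_succ, lett_succ]

/-- The product of the alternating word of length `k` which starts with `s`. -/
def altE (s t : S) : ℕ → W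
  | 0 => 1
  | (k + 1) => altE s t k * C.simple (lett s t k)

@[simp] theorem altE_zero (s t : S) : altE C s t 0 = 1 := rfl

theorem altE_succ (s t : S) (k : ℕ) :
    altE C s t (k + 1) = altE C s t k * C.simple (lett s t k) := rfl

theorem altE_succ' (s t : S) (k : ℕ) : altE C s t (k + 1) = C.simple s * altE C t s k := by
  induction k with
  | zero => simp [altE_succ, lett_zero]
  | succ k ih =>
    rw [altE_succ, ih, altE_succ, lett_succ, mul_assoc]

theorem wordProd_alternatingWord (s t : S) (k : ℕ) :
    C.wordProd (alternatingWord s t k) = if Even k then altE C s t k else altE C t s k := by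
  induction k with
  | zero => simp [alternatingWord]
  | succ k ih =>
    rw [alternatingWord_succ', wordProd_cons, ih]
    by_cases hk : Even k
    · simp [hk, parity_simps, altE_succ']
    · simp [hk, parity_simps, altE_succ']

theorem length_altE_le (s t : S) (k : ℕ) : C.length (altE C s t k) ≤ k := by
  induction k with
  | zero => simp
  | succ k ih =>
    rw [altE_succ]
    refine (C.length_mul_le _ _).trans ?_
    rw [C.length_simple]
    omega

/-- The gate decomposition with words given by their first letter. -/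
theorem exists_gate {s t : S} (h0 : M s t ≠ 0) (w : W) : ∃ (v : W) (x y : S) (k : ℕ),
    ((x = s ∧ y = t) ∨ (x = t ∧ y = s)) ∧ w = v * altE C x y k ∧
    C.length w = C.length v + k ∧ k ≤ M s t ∧
    ¬ C.IsRightDescent v s ∧ ¬ C.IsRightDescent v t := by
  obtain ⟨v, x, y, k, hxy, hw, hlen, hs, ht⟩ := exists_decomp C s t w
  have hk : k ≤ M s t := by
    have := le_label C (v := v) (x := x) (y := y) (k := k) (by rw [← hw]; exact hlen)
    rcases hxy with ⟨rfl, rfl⟩ | ⟨rfl, rfl⟩
    · omega
    · rw [M.symmetric] at this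
      omega
  rw [wordProd_alternatingWord] at hw
  by_cases he : Even k
  · rw [if_pos he] at hw
    exact ⟨v, x, y, k, hxy, hw, hlen, hk, hs, ht⟩
  · rw [if_neg he] at hw
    refine ⟨v, y, x, k, ?_, hw, hlen, hk, hs, ht⟩
    rcases hxy with ⟨h1, h2⟩ | ⟨h1, h2⟩
    · exact Or.inr ⟨h2, h1⟩
    · exact Or.inl ⟨h2, h1⟩

variable {C} in
theorem cl_lett (s t : S) (k : ℕ) : cl (M (lett s t k) (lett s t (k + 1))) = cl (M s t) := by
  by_cases hk : Even k
  · simp [lett, hk, parity_simps]
  · simp [lett, hk, parity_simps, M.symmetric]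

/-- The two roots at the chamber number `k`. -/
theorem root_altE (v : W) (s t : S) (k : ℕ) :
    root C (v * altE C s t k) (lett s t k)
        = chb (cl (M s t)) (k + 1) • root C v s + chb (cl (M s t)) k • root C v t ∧
    root C (v * altE C s t k) (lett s t (k + 1))
        = (- chb (cl (M s t)) k) • root C v s
          + (chb (cl (M s t)) (k + 1) - 2 * cl (M s t) * chb (cl (M s t)) k) • root C v t := by
  induction k with
  | zero => simp [lett_zero, lett_one]
  | succ k ih =>
    obtain ⟨h1, h2⟩ := ih
    rw [altE_succ, ← mul_assoc]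
    constructor
    · rw [root_mul_simple, h1, h2, cl_lett, chb_succ_succ]
      module
    · rw [lett_add_two, root_mul_simple_self, h1, chb_succ_succ]
      module

/-- The difference between a residue and its panels. The panel number `k` on the side of `s` lies between the chambers
number `k` and `k + 1`. -/
theorem act_orth_altE (v : W) {s t : S} (hst : s ≠ t) (h0 : M s t ≠ 0) (k : ℕ) :
    act C (v * altE C s t k) (orth M (lett s t k) (lett s t (k + 1)))
      = cos ((k + 1 : ℕ) * (π / M s t)) • root C v s + cos (k * (π / M s t)) • root C v t := by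
  have hs := sin_label_pos hst h0
  have e1 := chb_cos (π / M s t) k
  have e2 := chb_cos (π / M s t) (k + 1)
  obtain ⟨h1, h2⟩ := root_altE C v s t k
  rw [act_orth, h1, h2, cl_lett]
  have c1 : cl (M s t) * chb (cl (M s t)) (k + 1) - chb (cl (M s t)) k
      = cos ((k + 1 : ℕ) * (π / M s t)) := by
    have h3 : (cl (M s t) * chb (cl (M s t)) (k + 1) - chb (cl (M s t)) k
      - cos ((k + 1 : ℕ) * (π / M s t))) * sin (π / M s t) = 0 := by
      have e3 : sin ((k : ℝ) * (π / M s t)) = sin ((k + 1 : ℕ) * (π / M s t)) * cos (π / M s t)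
          - cos ((k + 1 : ℕ) * (π / M s t)) * sin (π / M s t) := by
        rw [← sin_sub]
        congr 1
        push_cast
        ring
      rw [cl] at *
      linear_combination cos (π / M s t) * e2 - e1 - e3
    rcases mul_eq_zero.mp h3 with h | h
    · linarith
    · exact absurd h hs.ne'
  have c2 : chb (cl (M s t)) (k + 1) - cl (M s t) * chb (cl (M s t)) k
      = cos (k * (π / M s t)) := by
    have h3 : (chb (cl (M s t)) (k + 1) - cl (M s t) * chb (cl (M s t)) k
      - cos (k * (π / M s t))) * sin (π / M s t) = 0 := by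
      have e3 : sin ((k + 1 : ℕ) * (π / M s t)) = sin (k * (π / M s t)) * cos (π / M s t)
          + cos (k * (π / M s t)) * sin (π / M s t) := by
        rw [← sin_add]
        congr 1
        push_cast
        ring
      rw [cl] at *
      linear_combination e2 - cos (π / M s t) * e1 + e3
    rcases mul_eq_zero.mp h3 with h | h
    · linarith
    · exact absurd h hs.ne'
  rw [← c1, ← c2]
  module

theorem M_lett (s t : S) (k : ℕ) : M (lett s t k) (lett s t (k + 1)) = M s t := by
  by_cases hk : Even k
  · simp [lett, hk, parity_simps]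
  · simp [lett, hk, parity_simps, M.symmetric]

/-- `gap k > 0` means that the panel number `k` on the side of the first root is below the residue. -/
noncomputable def gap (m : ℕ) (p q : ℝ) (k : ℕ) : ℝ :=
  cos ((k + 1 : ℕ) * (π / m)) * p + cos (k * (π / m)) * q

theorem ht2_sub_ht1_altE (v : W) {s t : S} (hst : s ≠ t) (h0 : M s t ≠ 0) (k : ℕ) :
    ht2 C μ (v * altE C s t k) (lett s t k) (lett s t (k + 1))
      - ht1 C μ (v * altE C s t k) (lett s t k)
      = kap (M s t) * gap (M s t) (μ (root C v s)) (μ (root C v t)) k := by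
  rw [ht2_sub_ht1 C μ _ (by rwa [M_lett]), M_lett, act_orth_altE C v hst h0, gap, map_add,
    map_smul, map_smul, smul_eq_mul, smul_eq_mul]

theorem cos_nonpos_of {m k : ℕ} (h0 : m ≠ 0) (h1 : m ≤ 2 * k) (h2 : k ≤ m) :
    cos (k * (π / m)) ≤ 0 := by
  have hm : (0 : ℝ) < m := by exact_mod_cast Nat.pos_of_ne_zero h0
  have h1' : (m : ℝ) ≤ 2 * k := by exact_mod_cast h1
  have h2' : (k : ℝ) ≤ m := by exact_mod_cast h2
  have hp : 0 < π / m := by have := pi_pos; positivity
  have e : (m : ℝ) * (π / m) = π := by field_simp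
  apply cos_nonpos_of_pi_div_two_le_of_le
  · nlinarith
  · nlinarith [pi_pos]

/-- Panels below the residue are at positions less than half of the label. -/
theorem two_mul_lt_of_gap_pos {m k : ℕ} {p q : ℝ} (hp : 0 ≤ p) (hq : 0 ≤ q) (hk : k < m)
    (h : 0 < gap m p q k) : 2 * k < m := by
  by_contra hc
  push Not at hc
  have h1 := cos_nonpos_of (m := m) (k := k) (by omega) hc (by omega)
  have h2 := cos_nonpos_of (m := m) (k := k + 1) (by omega) (by omega) (by omega)
  rw [gap] at h
  have := mul_nonneg (neg_nonneg.mpr h1) hq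
  have := mul_nonneg (neg_nonneg.mpr h2) hp
  linarith

/-- Two panels below the residue on the two sides. -/
theorem add_lt_of_gap_pos {m k l : ℕ} {p q : ℝ} (hp : 0 ≤ p) (hq : 0 ≤ q) (hk : k < m)
    (hl : l < m) (h : 0 < gap m p q k) (h' : 0 < gap m q p l) : k + l + 1 < m := by
  by_contra hc
  push Not at hc
  have hm : (0 : ℝ) < m := by
    have : 0 < m := by omega
    exact_mod_cast this
  have hp' : 0 < π / m := by have := pi_pos; positivity
  have e : (m : ℝ) * (π / m) = π := by field_simp
  have hk' : (k : ℝ) + 1 ≤ m := by exact_mod_cast hk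
  have hl' : (l : ℝ) + 1 ≤ m := by exact_mod_cast hl
  have hc' : (m : ℝ) ≤ k + l + 1 := by exact_mod_cast hc
  have h1 : cos ((k + 1 : ℕ) * (π / m)) ≤ - cos (l * (π / m)) := by
    rw [← cos_pi_sub]
    apply cos_le_cos_of_nonneg_of_le_pi
    · have : (l : ℝ) * (π / m) ≤ m * (π / m) := by nlinarith
      linarith
    · push_cast; nlinarith
    · push_cast; nlinarith
  have h2 : cos (k * (π / m)) ≤ - cos ((l + 1 : ℕ) * (π / m)) := by
    rw [← cos_pi_sub]
    apply cos_le_cos_of_nonneg_of_le_pi
    · push_cast
      have : ((l : ℝ) + 1) * (π / m) ≤ m * (π / m) := by nlinarith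
      linarith
    · nlinarith
    · push_cast; nlinarith
  rw [gap] at h h'
  have := mul_le_mul_of_nonneg_right h1 hp
  have := mul_le_mul_of_nonneg_right h2 hq
  linarith

end residue

section generic

/-- There is a positive functional which does not vanish on finitely many given nonzero vectors. -/
theorem exists_generic (X : Finset (S →₀ ℝ)) (hX : ∀ x ∈ X, x ≠ 0) :
    ∃ μ : (S →₀ ℝ) →ₗ[ℝ] ℝ, (∀ s, 0 < μ (Finsupp.single s 1)) ∧ ∀ x ∈ X, μ x ≠ 0 := by
  classical
  induction X using Finset.induction_on with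
  | empty =>
    refine ⟨Finsupp.linearCombination ℝ (fun _ => (1 : ℝ)), ?_, by simp⟩
    intro s
    simp
  | insert x X hx ih =>
    obtain ⟨μ, h1, h2⟩ := ih (fun y hy => hX y (Finset.mem_insert_of_mem hy))
    by_cases h0 : μ x = 0
    · have hx0 : x ≠ 0 := hX x (Finset.mem_insert_self _ _)
      obtain ⟨s, hs⟩ : ∃ s, x s ≠ 0 := by
        by_contra hc
        push Not at hc
        exact hx0 (Finsupp.ext hc)
      -- the forbidden values of the parameter
      obtain ⟨e, he0, he⟩ : ∃ e : ℝ, 0 < e ∧ e ∉ (X.image (fun y => - μ y / y s)) := by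
        obtain ⟨e, he⟩ := (Set.Infinite.exists_notMem_finset
          (Set.Ioi_infinite (0 : ℝ)) (X.image (fun y => - μ y / y s)))
        exact ⟨e, he.1, he.2⟩
      refine ⟨μ + e • Finsupp.lapply s, ?_, ?_⟩
      · intro t
        simp only [LinearMap.add_apply, LinearMap.smul_apply, Finsupp.lapply_apply, smul_eq_mul]
        have := h1 t
        have h3 : 0 ≤ (Finsupp.single t (1 : ℝ)) s := single_nonneg' t s
        have := mul_nonneg he0.le h3
        linarith
      · intro y hy
        simp only [LinearMap.add_apply, LinearMap.smul_apply, Finsupp.lapply_apply, smul_eq_mul]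
        rcases Finset.mem_insert.mp hy with rfl | hy
        · rw [h0, zero_add]
          exact mul_ne_zero he0.ne' hs
        · intro h3
          by_cases hys : y s = 0
          · rw [hys, mul_zero, add_zero] at h3
            exact h2 y hy h3
          · apply he
            rw [Finset.mem_image]
            refine ⟨y, hy, ?_⟩
            rw [div_eq_iff hys]
            linarith
    · refine ⟨μ, h1, ?_⟩
      intro y hy
      rcases Finset.mem_insert.mp hy with rfl | hy
      · exact h0
      · exact h2 y hy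

theorem orth_ne_zero {s t : S} (hst : s ≠ t) : orth M s t ≠ 0 := by
  intro h
  have h' := DFunLike.congr_fun h t
  simp only [orth, Finsupp.coe_add, Pi.add_apply, Finsupp.coe_smul,
    Pi.smul_apply, smul_eq_mul, Finsupp.coe_zero, Pi.zero_apply, Finsupp.single_eq_same] at h'
  rw [Finsupp.single_eq_of_ne hst.symm] at h'
  simp at h'

theorem act_orth_ne_zero (w : W) {s t : S} (hst : s ≠ t) : act C w (orth M s t) ≠ 0 := by
  intro h
  have h1 : act C w (orth M s t) = act C w 0 := by rw [map_zero]; exact h
  exact orth_ne_zero hst (act_injective C w h1)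

/-- A positive functional for which no residue of a finite set is at the height of one of its panels. -/
theorem exists_generic_heights (K : Finset (W × S × S)) :
    ∃ μ : (S →₀ ℝ) →ₗ[ℝ] ℝ, (∀ s, 0 < μ (Finsupp.single s 1)) ∧
      ∀ x ∈ K, x.2.1 ≠ x.2.2 → M x.2.1 x.2.2 ≠ 0 → ht2 C μ x.1 x.2.1 x.2.2 ≠ ht1 C μ x.1 x.2.1 := by
  classical
  obtain ⟨μ, h1, h2⟩ := exists_generic
    ((K.filter (fun x => x.2.1 ≠ x.2.2)).image (fun x => act C x.1 (orth M x.2.1 x.2.2))) (by
      intro y hy
      obtain ⟨x, hx, rfl⟩ := Finset.mem_image.mp hy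
      exact act_orth_ne_zero C x.1 (Finset.mem_filter.mp hx).2)
  refine ⟨μ, h1, ?_⟩
  intro x hx hne h0 h
  have h3 := ht2_sub_ht1 C μ x.1 h0
  rw [h, sub_self] at h3
  have h4 := h2 (act C x.1 (orth M x.2.1 x.2.2))
    (Finset.mem_image.mpr ⟨x, Finset.mem_filter.mpr ⟨hx, hne⟩, rfl⟩)
  rcases mul_eq_zero.mp h3.symm with h5 | h5
  · exact (kap_pos h0).ne' h5
  · exact h4 h5

end generic

end Pool.Agent.Helper63.TD
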