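import Pool.Agent.Helper63.TD.Cheb

/-!
# The Tits representation: roots and length

For a Coxeter system `C : CoxeterSystem M W` (any index set `S`), a representation of `W` on a real vector space
`U` with vectors `a s` and functionals `f s` such that `f s (a t) = - cos (pi / M s t)`.
-/

namespace Pool.Agent.Helper63.TD

open Real CoxeterSystem

variable {S : Type*} {M : CoxeterMatrix S} {W : Type*} [Group W] (C : CoxeterSystem M W)

section datum

variable {U : Type*} [AddCommGroup U] [Module ℝ U]

/-- Vectors and functionals with the matrix of the geometric representation. -/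
structure Datum (M : CoxeterMatrix S) (U : Type*) [AddCommGroup U] [Module ℝ U] where
  /-- the vectors -/
  a : S → U
  /-- the functionals -/
  f : S → U →ₗ[ℝ] ℝ
  fa : ∀ s t, f s (a t) = - cl (M s t)

variable (D : Datum M U)

theorem Datum.fa_self (s : S) : D.f s (D.a s) = 1 := by
  rw [D.fa, M.diagonal, cl_one]; norm_num

theorem Datum.liftable : M.IsLiftable (fun s => refl (D.f s) (D.a s)) := by
  intro s t
  by_cases hst : s = t
  · subst hst
    rw [M.diagonal, pow_one]
    exact refl_sq (D.fa_self s)
  · by_cases h0 : M s t = 0
    · rw [h0, pow_zero]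
    · apply LinearMap.ext
      intro v
      rw [refl_mul_pow (x := cl (M s t)) (D.fa_self s) (D.fa_self t) (D.fa s t)
        (by rw [D.fa, M.symmetric])]
      rw [chb_label (M.off_diagonal s t hst) h0]
      simp

/-- The representation. -/
noncomputable def Datum.rep : W →* Module.End ℝ U := C.lift ⟨_, D.liftable⟩

theorem Datum.rep_simple (s : S) : D.rep C (C.simple s) = refl (D.f s) (D.a s) :=
  C.lift_apply_simple D.liftable s

theorem Datum.rep_simple_apply (s : S) (v : U) :
    D.rep C (C.simple s) v = v - (2 * D.f s v) • D.a s := by
  rw [D.rep_simple, refl_apply]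

theorem Datum.rep_mul_apply (w w' : W) (v : U) : D.rep C (w * w') v = D.rep C w (D.rep C w' v) := by
  rw [map_mul]; rfl

theorem Datum.rep_one_apply (v : U) : D.rep C 1 v = v := by
  rw [map_one]; rfl

theorem Datum.rep_inv_apply (w : W) (v : U) : D.rep C w⁻¹ (D.rep C w v) = v := by
  rw [← D.rep_mul_apply, inv_mul_cancel, D.rep_one_apply]

theorem Datum.rep_inv_apply' (w : W) (v : U) : D.rep C w (D.rep C w⁻¹ v) = v := by
  rw [← D.rep_mul_apply, mul_inv_cancel, D.rep_one_apply]

theorem Datum.rep_injective (w : W) : Function.Injective (D.rep C w) :=
  Function.LeftInverse.injective (D.rep_inv_apply C w)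

theorem Datum.rep_simple_self (s : S) : D.rep C (C.simple s) (D.a s) = - D.a s := by
  rw [D.rep_simple_apply, D.fa_self]
  module

theorem Datum.rep_mul_simple_self (w : W) (s : S) :
    D.rep C (w * C.simple s) (D.a s) = - D.rep C w (D.a s) := by
  rw [D.rep_mul_apply, D.rep_simple_self, map_neg]

/-- The action of an alternating word on the root of its first (missing) letter. -/
theorem Datum.rep_alt (s t : S) (k : ℕ) :
    D.rep C (C.wordProd (alternatingWord s t k)) (D.a s)
      = if Even k then chb (cl (M s t)) (k + 1) • D.a s + chb (cl (M s t)) k • D.a t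
        else chb (cl (M s t)) k • D.a s + chb (cl (M s t)) (k + 1) • D.a t := by
  induction k with
  | zero =>
    have e : C.wordProd (alternatingWord s t 0) = 1 := by simp [alternatingWord]
    rw [e, D.rep_one_apply]
    simp
  | succ k ih =>
    rw [alternatingWord_succ', wordProd_cons, D.rep_mul_apply, ih]
    by_cases hk : Even k
    · simp only [hk, parity_simps, if_true, not_true_eq_false, if_false, map_add, map_smul,
        D.rep_simple_apply C, D.fa, M.diagonal, cl_one, chb_succ_succ, M.symmetric t s]
      module
    · simp only [hk, parity_simps, if_true, not_false_eq_true, if_false, map_add, map_smul,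
        D.rep_simple_apply C, D.fa, M.diagonal, cl_one, chb_succ_succ]
      module

end datum

section decomposition

/-- Every element is a product of an element without descents in `{s, t}` and an alternating word, with
additive lengths. The last letter is chosen among `s, t`. -/
theorem exists_decomp (s t : S) (w : W) : ∃ (v : W) (x y : S) (k : ℕ),
    ((x = s ∧ y = t) ∨ (x = t ∧ y = s)) ∧ w = v * C.wordProd (alternatingWord x y k) ∧
    C.length w = C.length v + k ∧ ¬ C.IsRightDescent v s ∧ ¬ C.IsRightDescent v t := by
  induction h : C.length w using Nat.strong_induction_on generalizing w with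
  | _ n ih =>
    by_cases hd : C.IsRightDescent w s ∨ C.IsRightDescent w t
    · -- the descent `y`
      obtain ⟨x', y', hxy, hy'⟩ : ∃ x' y', ((x' = s ∧ y' = t) ∨ (x' = t ∧ y' = s)) ∧
          C.IsRightDescent w y' := by
        rcases hd with hd | hd
        · exact ⟨t, s, Or.inr ⟨rfl, rfl⟩, hd⟩
        · exact ⟨s, t, Or.inl ⟨rfl, rfl⟩, hd⟩
      have hl := (C.isRightDescent_iff).mp hy'
      obtain ⟨v, x, y, k, hxy2, hw, hlen, hs, ht⟩ := ih (C.length (w * C.simple y')) (by omega)
        (w * C.simple y') rfl
      have hw' : w = v * C.wordProd (alternatingWord x y k) * C.simple y' := by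
        rw [← hw, C.simple_mul_simple_cancel_right]
      rcases Nat.eq_zero_or_pos k with hk | hk
      · subst hk
        refine ⟨v, x', y', 1, hxy, ?_, by omega, hs, ht⟩
        rw [hw']
        simp [alternatingWord]
      · obtain ⟨k, rfl⟩ : ∃ k', k = k' + 1 := ⟨k - 1, by omega⟩
        by_cases hyy : y = y'
        · exfalso
          subst hyy
          have e : w = v * C.wordProd (alternatingWord y x k) := by
            rw [hw', alternatingWord_succ, wordProd_concat]
            simp [mul_assoc]
          have h1 : C.length w ≤ C.length v + k := by
            rw [e]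
            refine (C.length_mul_le _ _).trans ?_
            have := C.length_wordProd_le (alternatingWord y x k)
            rw [length_alternatingWord] at this
            omega
          omega
        · have hx : x = y' ∧ y = x' := by
            rcases hxy with ⟨h1, h2⟩ | ⟨h1, h2⟩ <;> rcases hxy2 with ⟨h3, h4⟩ | ⟨h3, h4⟩
            · exact absurd (h4.trans h2.symm) hyy
            · exact ⟨h3.trans h2.symm, h4.trans h1.symm⟩
            · exact ⟨h3.trans h2.symm, h4.trans h1.symm⟩
            · exact absurd (h4.trans h2.symm) hyy
          refine ⟨v, x', y', k + 1 + 1, hxy, ?_, by omega, hs, ht⟩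
          rw [hw', hx.1, hx.2, alternatingWord_succ x' y' (k + 1), wordProd_concat, mul_assoc]
    · push Not at hd
      exact ⟨w, s, t, 0, Or.inl ⟨rfl, rfl⟩, by simp [alternatingWord], by omega, hd.1, hd.2⟩

/-- In a decomposition with additive lengths the length of the alternating word is at most the label. -/
theorem le_label {x y : S} {v : W} {k : ℕ}
    (h : C.length (v * C.wordProd (alternatingWord x y k)) = C.length v + k) :
    M x y = 0 ∨ k ≤ M x y := by
  by_contra hc
  push Not at hc
  apply C.not_isReduced_alternatingWord x y hc.1 hc.2
  have h1 := C.length_mul_le v (C.wordProd (alternatingWord x y k))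
  have h2 := C.length_wordProd_le (alternatingWord x y k)
  rw [length_alternatingWord] at h2
  rw [CoxeterSystem.IsReduced, length_alternatingWord]
  omega

end decomposition

end Pool.Agent.Helper63.TD
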